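import Pool.Agent.Q14.BT.NetA
import Pool.Agent.Q176.SF.Expand
import Pool.Agent.Q216.SF.Sep
import Pool.Agent.Q216.SF.Cross
import Pool.Agent.Q177.SF.Comp
import Pool.Agent.Q210.SF.CInj

/-!
# Project BT (helper74), part 3: job NetLaw, the law of the number of values on the net
-/

set_option autoImplicit false

namespace Pool.Agent.Q14.BT

open Finset
open Pool.Agent.Q158.Pair (T surv nc)
open Pool.Agent.Q74.AR (oc bE oc_per oc_le Td ocd)
open Pool.Agent.Q74.KP (EE Erf pq pf pf_lim EE_mono EE_add EE_mul EE_const EE_sum oc_add oc_last Vd Yd yy Lv)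
open Pool.Agent.Q74.BL (nx ww EE_split T_add cl cn cn_ge sum_cn sum_classes)
open Pool.Agent.Q74.BT
open Pool.Agent.Q74.SF
open Pool.Agent.H395R2.G3 (rr FF rate)
open Pool.Agent.Q153.BT (rr_bounds)
open Pool.Agent.Q16.BT (Erf_mono)

/-- the law of all coincidences -/
theorem hfix : S_Fix := Pool.Agent.Q14.SF.fix Pool.Agent.Q176.SF.Expand.expand Pool.Agent.Q216.SF.sep
  Pool.Agent.Q216.SF.cross Pool.Agent.Q177.SF.comp Pool.Agent.Q210.SF.cinj Pool.Agent.Q177.SF.cmono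

/-- the sum over a window in classes modulo `2 ^ u` -/
theorem window {k : ℕ} (u r : ℕ) (j : Fin k → ℤ → ℕ) (hj : ∀ i x y, j i (x + 2 ^ u * y) = j i x) (f : ℕ → ℝ)
    (M : ℤ) (W : ℕ) : ∑ n ∈ Ico M (M + W), f (univ.image (fun i => T^[u + r] (n + j i n))).card =
    ∑ x ∈ range (2 ^ u), ∑ N ∈ Ico (cl u x M) (cl u x M + cn u x M W),
      f (univ.image (fun i => T^[r] (3 ^ oc u ((x : ℤ) + j i x) * N + T^[u] ((x : ℤ) + j i x)))).card := by
  rw [sum_classes u M W]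
  refine sum_congr rfl fun x _ => sum_congr rfl fun N _ => ?_
  have e : ∀ i : Fin k, T^[u + r] ((2 ^ u * N + x : ℤ) + j i (2 ^ u * N + x)) =
      T^[r] (3 ^ oc u ((x : ℤ) + j i x) * N + T^[u] ((x : ℤ) + j i x)) := by
    intro i
    have e1 : j i (2 ^ u * N + x) = j i x := by rw [add_comm, hj]
    have e2 : (2 ^ u * N + x : ℤ) + (j i (2 ^ u * N + x) : ℤ) = (x + j i x) + 2 ^ u * N := by rw [e1]; ring
    rw [e2, Nat.add_comm u r, Function.iterate_add_apply, T_add]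
    congr 1
    ring
  simp only [e]

theorem EE_ind (u : ℕ) (S : Set ℤ) [DecidablePred fun x : ℕ => (x : ℤ) ∈ S] :
    EE u (fun x => Set.indicator S 1 x) = (((range (2 ^ u)).filter (fun x : ℕ => (x : ℤ) ∈ S)).card : ℝ) / 2 ^ u := by
  unfold EE
  congr 1
  rw [card_filter]
  push_cast
  refine sum_congr rfl fun x _ => ?_
  by_cases h : (x : ℤ) ∈ S
  · rw [Set.indicator_of_mem h, if_pos h]; rfl
  · rw [Set.indicator_of_notMem h, if_neg h]

/-- the law over a window -/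
theorem avg_law (u W : ℕ) (M : ℤ) (B : Finset ℕ) (hB : B ⊆ range (2 ^ u)) (F : ℕ → ℝ) (c e₁ e₂ e₃ : ℝ)
    (hc : |c| ≤ 1) (he₁ : 0 ≤ e₁) (he₂ : 0 ≤ e₂) (hB2 : (B.card : ℝ) / 2 ^ u ≤ e₃)
    (hg : ∀ x ∈ range (2 ^ u), x ∉ B → |F x - c * cn u x M W| ≤ e₁ * cn u x M W + e₂)
    (hb : ∀ x ∈ B, |F x| ≤ cn u x M W) :
    |∑ x ∈ range (2 ^ u), F x - c * W| ≤ e₁ * W + e₂ * 2 ^ u + 2 * (e₃ * W + 2 ^ u) := by
  have h1 : ∑ x ∈ range (2 ^ u), F x - c * W = ∑ x ∈ range (2 ^ u), (F x - c * cn u x M W) := by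
    rw [sum_sub_distrib, ← mul_sum, sum_cn]
  rw [h1]
  have h2 : ∀ x ∈ range (2 ^ u), |F x - c * cn u x M W| ≤ (e₁ * cn u x M W + e₂) + (if x ∈ B then 2 * (cn u x M W : ℝ) else 0) := by
    intro x hx
    by_cases hxB : x ∈ B
    · rw [if_pos hxB]
      have h3 := hb x hxB
      have h4 : |c * cn u x M W| ≤ cn u x M W := by
        rw [abs_mul, abs_of_nonneg (Nat.cast_nonneg (cn u x M W) : (0 : ℝ) ≤ _)]
        exact mul_le_of_le_one_left (Nat.cast_nonneg _) hc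
      have h5 := abs_sub (F x) (c * cn u x M W)
      have h6 : 0 ≤ e₁ * cn u x M W := mul_nonneg he₁ (Nat.cast_nonneg _)
      linarith
    · rw [if_neg hxB, add_zero]
      exact hg x hx hxB
  refine (abs_sum_le_sum_abs _ _).trans ((sum_le_sum h2).trans ?_)
  rw [sum_add_distrib, sum_add_distrib, ← mul_sum, sum_cn, sum_const, card_range, nsmul_eq_mul]
  have h7 : ∑ x ∈ range (2 ^ u), (if x ∈ B then 2 * (cn u x M W : ℝ) else 0) = 2 * ∑ x ∈ B, (cn u x M W : ℝ) := by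
    rw [mul_sum, ← sum_filter]
    congr 1
    ext x
    rw [mem_filter]
    exact ⟨fun h => h.2, fun h => ⟨hB h, h⟩⟩
  rw [h7]
  have h8 := bad_sum u W M B hB
  have h9 : (B.card : ℝ) / 2 ^ u * W ≤ e₃ * W := mul_le_mul_of_nonneg_right hB2 (Nat.cast_nonneg W)
  push_cast
  linarith

/-- the mean over a window -/
theorem avg_mean (u W : ℕ) (M : ℤ) (B : Finset ℕ) (hB : B ⊆ range (2 ^ u)) (F : ℕ → ℝ) (c e₁ e₂ e₃ : ℝ)
    (hc : 0 ≤ c) (he₁ : 0 ≤ e₁) (he₂ : 0 ≤ e₂) (hB2 : (B.card : ℝ) / 2 ^ u ≤ e₃)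
    (hg : ∀ x ∈ range (2 ^ u), x ∉ B → (c - e₁) * cn u x M W - e₂ ≤ F x)
    (hb : ∀ x ∈ B, 0 ≤ F x) :
    (c - e₁) * W - e₂ * 2 ^ u - c * (e₃ * W + 2 ^ u) ≤ ∑ x ∈ range (2 ^ u), F x := by
  have h2 : ∀ x ∈ range (2 ^ u), ((c - e₁) * cn u x M W - e₂) - (if x ∈ B then c * (cn u x M W : ℝ) else 0) ≤ F x := by
    intro x hx
    by_cases hxB : x ∈ B
    · rw [if_pos hxB]
      have h3 := hb x hxB
      have h6 : 0 ≤ e₁ * cn u x M W := mul_nonneg he₁ (Nat.cast_nonneg _)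
      linarith
    · rw [if_neg hxB, sub_zero]
      exact hg x hx hxB
  refine le_trans ?_ (sum_le_sum h2)
  rw [sum_sub_distrib, sum_sub_distrib, ← mul_sum, sum_cn, sum_const, card_range, nsmul_eq_mul]
  have h7 : ∑ x ∈ range (2 ^ u), (if x ∈ B then c * (cn u x M W : ℝ) else 0) = c * ∑ x ∈ B, (cn u x M W : ℝ) := by
    rw [mul_sum, ← sum_filter]
    congr 1
    ext x
    rw [mem_filter]
    exact ⟨fun h => h.2, fun h => ⟨hB h, h⟩⟩
  rw [h7]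
  have h8 := bad_sum u W M B hB
  have h9 : (B.card : ℝ) / 2 ^ u * W ≤ e₃ * W := mul_le_mul_of_nonneg_right hB2 (Nat.cast_nonneg W)
  have h10 : c * ∑ x ∈ B, (cn u x M W : ℝ) ≤ c * (e₃ * W + 2 ^ u) := mul_le_mul_of_nonneg_left (by linarith) hc
  push_cast
  linarith

/-- the telescoping sum of the gaps -/
theorem gap_sum {k : ℕ} (a : Fin (k + 1) → ℤ) :
    ∑ i : Fin k, ((a i.succ : ℝ) - a i.castSucc) = (a (Fin.last k) : ℝ) - a 0 := by
  rw [sum_sub_distrib]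
  have h1 := Fin.sum_univ_succ (fun i : Fin (k + 1) => (a i : ℝ))
  have h2 := Fin.sum_univ_castSucc (fun i : Fin (k + 1) => (a i : ℝ))
  linarith

/-- the mean number of places for a net -/
theorem mean_low (h0 : S_CwMean) {k r t : ℕ} (hrt : r ≤ t) (hr : 1 ≤ r) {ε₃ d : ℝ}
    (hpf : ∀ z : ℤ, 0 ≤ z → |pf r z - Erf (z / √r)| ≤ ε₃) (a : Fin (k + 1) → ℤ) (ha : Monotone a)
    (hd : ∀ i : Fin k, ((a i.succ : ℝ) - a i.castSucc) ≤ d * √t) :
    1 + 2 / √Real.pi * (((a (Fin.last k) : ℝ) - a 0) / √t) * (1 - d ^ 2 / 3) - k * ε₃ ≤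
      CG (fun z => ((univ.image z).card : ℝ)) r a := by
  rw [h0 k r a ha]
  have hr0 : (0 : ℝ) < √r := Real.sqrt_pos.2 (by exact_mod_cast hr)
  have hrt' : √(r : ℝ) ≤ √t := Real.sqrt_le_sqrt (by exact_mod_cast hrt)
  have ht0 : (0 : ℝ) < √t := lt_of_lt_of_le hr0 hrt'
  have h1 : ∀ i : Fin k, 2 / √Real.pi * (((a i.succ : ℝ) - a i.castSucc) / √t) * (1 - d ^ 2 / 3) - ε₃ ≤
      pq r (a i.succ - a i.castSucc) := by
    intro i
    have hmon : a i.castSucc ≤ a i.succ := ha (Fin.castSucc_lt_succ).le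
    have hz : 0 ≤ a i.succ - a i.castSucc := by omega
    have e1 : pq r (a i.succ - a i.castSucc) = pf r (a i.succ - a i.castSucc) := by
      unfold pq pf
      congr 2
      omega
    rw [e1]
    have h2 := (abs_le.1 (hpf _ hz)).1
    obtain ⟨g, hg⟩ : ∃ g : ℝ, g = (a i.succ : ℝ) - a i.castSucc := ⟨_, rfl⟩
    have hg0 : 0 ≤ g := by
      rw [hg, sub_nonneg]
      exact_mod_cast hmon
    have hgd : g ≤ d * √t := by rw [hg]; exact hd i
    have e2 : ((a i.succ - a i.castSucc : ℤ) : ℝ) = g := by rw [hg]; push_cast; ring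
    rw [e2] at h2
    rw [← hg]
    have h3 : Erf (g / √t) ≤ Erf (g / √r) := Erf_mono (div_le_div_of_nonneg_left hg0 hr0 hrt')
    have hx0 : 0 ≤ g / √t := by positivity
    have h4 := Erf_low hx0
    have hxd : g / √t ≤ d := by
      rw [div_le_iff₀ ht0]
      exact hgd
    have h5 : 2 / √Real.pi * (g / √t) * (1 - d ^ 2 / 3) ≤ 2 / √Real.pi * (g / √t - (g / √t) ^ 3 / 3) := by
      rw [mul_assoc]
      refine mul_le_mul_of_nonneg_left ?_ (by positivity)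
      have h6 : (g / √t) ^ 2 ≤ d ^ 2 := pow_le_pow_left₀ hx0 hxd 2
      nlinarith
    linarith
  have h2 := sum_le_sum fun (i : Fin k) (_ : i ∈ univ) => h1 i
  rw [sum_sub_distrib, sum_const, card_univ, Fintype.card_fin, nsmul_eq_mul, ← sum_mul, ← mul_sum, ← sum_div,
    gap_sum] at h2
  linarith

theorem good_facts {k : ℕ} (hk : 1 ≤ k) (A : Fin (k + 1) → ℕ) (c₀ Y e : ℝ)
    (h : ∀ i : Fin (k + 1), |(A i : ℝ) - (c₀ + ((i : ℕ) : ℝ) / k * Y)| ≤ e) :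
    (∀ i : Fin k, |((A i.succ : ℝ) - A i.castSucc) - Y / k| ≤ 2 * e) ∧
      |((A (Fin.last k) : ℝ) - A 0) - Y| ≤ 2 * e := by
  have hk0 : (0 : ℝ) < k := by exact_mod_cast hk
  constructor
  · intro i
    have h1 := abs_le.1 (h i.succ)
    have h2 := abs_le.1 (h i.castSucc)
    rw [Fin.val_succ] at h1
    rw [Fin.val_castSucc] at h2
    push_cast at h1
    have e1 : ((i : ℕ) + 1 : ℝ) / k * Y = (i : ℕ) / k * Y + Y / k := by ring
    rw [e1] at h1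
    rw [abs_le]
    constructor <;> linarith [h1.1, h1.2, h2.1, h2.2]
  · have h1 := abs_le.1 (h (Fin.last k))
    have h2 := abs_le.1 (h 0)
    rw [Fin.val_last, div_self hk0.ne', one_mul] at h1
    rw [Fin.val_zero, Nat.cast_zero, zero_div, zero_mul, add_zero] at h2
    rw [abs_le]
    constructor <;> linarith [h1.1, h1.2, h2.1, h2.2]

/-- the offsets are small -/
theorem off_all {k : ℕ} {ρ : ℝ} (u r t L : ℕ) (hL : 1 ≤ L) (ht : t = u + r) (hr1 : 1 ≤ r) (x : ℤ)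
    (j : Fin (k + 1) → ℕ) (hj : ∀ i, j i < L) (c1 : (u : ℝ) * Real.log t ≤ ρ * r)
    (c2 : 3 + (u : ℝ) / 2 + Real.log L ≤ ρ * r) :
    Off ρ r (fun i => oc u (x + j i)) (fun i => T^[u] (x + j i)) := by
  have hrt : (r : ℝ) ≤ t := by rw [ht]; push_cast; linarith [(Nat.cast_nonneg u : (0 : ℝ) ≤ u)]
  have hr0 : (1 : ℝ) ≤ r := by exact_mod_cast hr1
  have hLr : (1 : ℝ) ≤ L := by exact_mod_cast hL
  constructor
  · intro i i'
    have h1 : (oc u (x + j i') : ℝ) ≤ u := by exact_mod_cast oc_le u _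
    have h2 : (0 : ℝ) ≤ oc u (x + j i) := Nat.cast_nonneg _
    have h3 : 0 ≤ Real.log r := Real.log_nonneg hr0
    have h4 : Real.log r ≤ Real.log t := Real.log_le_log (by linarith) hrt
    calc ((oc u (x + j i') : ℝ) - oc u (x + j i)) * Real.log r ≤ u * Real.log r := by
          refine mul_le_mul_of_nonneg_right ?_ h3
          linarith
      _ ≤ u * Real.log t := by gcongr
      _ ≤ ρ * r := c1
  · intro i i' hii
    refine (off_block u L x (j i) (j i') (hj i) (hj i') hii).trans ?_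
    refine mul_le_mul_of_nonneg_left ?_ (by positivity)
    have h1 : (3 / 2 : ℝ) ^ u ≤ Real.exp (u / 2) := by
      have h2 : (3 / 2 : ℝ) ≤ Real.exp (1 / 2) := by
        have := Real.add_one_le_exp (1 / 2 : ℝ)
        linarith
      calc (3 / 2 : ℝ) ^ u ≤ (Real.exp (1 / 2)) ^ u := pow_le_pow_left₀ (by norm_num) h2 u
        _ = Real.exp (u / 2) := by rw [← Real.exp_nat_mul]; congr 1; ring
    have h3 : (L : ℝ) + 1 ≤ 2 * Real.exp (Real.log L) := by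
      rw [Real.exp_log (by linarith)]
      linarith
    have h4 : (4 : ℝ) ≤ Real.exp 3 := by
      have := Real.add_one_le_exp (3 : ℝ)
      linarith
    calc 2 * ((3 / 2 : ℝ) ^ u * (L + 1)) ≤ 2 * (Real.exp (u / 2) * (2 * Real.exp (Real.log L))) := by gcongr
      _ = 4 * (Real.exp (u / 2) * Real.exp (Real.log L)) := by ring
      _ ≤ Real.exp 3 * (Real.exp (u / 2) * Real.exp (Real.log L)) := by gcongr
      _ = Real.exp (3 + u / 2 + Real.log L) := by rw [Real.exp_add, Real.exp_add]; ring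
      _ ≤ Real.exp (ρ * r) := Real.exp_le_exp.2 c2

/-- numbers for the mean -/
theorem low_calc {D M₀ ε ε₁ δ ℓ s G : ℝ} {k : ℕ} (hk : 1 ≤ k) (hD : 0 < D) (hM₀ : 0 < M₀) (hε : 0 < ε) (hε₁ : 0 < ε₁)
    (hδ : 0 < δ) (hδ2 : δ ≤ 1 / 2) (hℓ : 0 < ℓ) (hs : 0 < s) (hℓs : ℓ / s ≤ M₀) (h1 : ε₁ * (64 * M₀) ≤ ε)
    (h2 : δ * (32 * (D * M₀ + 1)) ≤ ε) (h3 : -(2 * (ε₁ * ℓ)) ≤ G - D * ℓ) :
    1 + 2 / √Real.pi * (D * ℓ / s) - 5 * ε / 32 ≤
      1 + 2 / √Real.pi * (G / s) * (1 - δ ^ 2 / 3) - k * (ε / (16 * k)) := by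
  have hk0 : (0 : ℝ) < k := by exact_mod_cast hk
  have hpi : 2 / √Real.pi ≤ 2 := by
    have h6 : (1 : ℝ) ≤ √Real.pi := by
      rw [Real.one_le_sqrt]
      linarith [Real.pi_gt_three]
    rw [div_le_iff₀ (by linarith)]
    linarith
  have hpi0 : 0 ≤ 2 / √Real.pi := by positivity
  have hℓs0 : 0 ≤ ℓ / s := by positivity
  have h4 : D * ℓ / s - 2 * (ε₁ * ℓ) / s ≤ G / s := by
    rw [← sub_div]
    gcongr
    linarith
  have hδ3 : δ ^ 2 ≤ δ * (1 / 2) := by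
    rw [sq]
    exact mul_le_mul_of_nonneg_left hδ2 hδ.le
  have h5 : 0 ≤ 1 - δ ^ 2 / 3 := by linarith
  have h6 : 2 / √Real.pi * (D * ℓ / s - 2 * (ε₁ * ℓ) / s) * (1 - δ ^ 2 / 3) ≤ 2 / √Real.pi * (G / s) * (1 - δ ^ 2 / 3) := by
    gcongr
  have h7 : 2 * (ε₁ * ℓ) / s ≤ ε / 32 := by
    have e6 : 2 * (ε₁ * ℓ) / s = 2 * ε₁ * (ℓ / s) := by ring
    rw [e6]
    calc 2 * ε₁ * (ℓ / s) ≤ 2 * ε₁ * M₀ := by gcongr
      _ = (ε₁ * (64 * M₀)) / 32 := by ring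
      _ ≤ ε / 32 := by gcongr
  have h8 : D * ℓ / s * (δ ^ 2 / 3) ≤ ε / 64 := by
    have e6 : D * ℓ / s = D * (ℓ / s) := by ring
    rw [e6]
    have hDM : 0 < D * M₀ := by positivity
    calc D * (ℓ / s) * (δ ^ 2 / 3) ≤ D * M₀ * (δ ^ 2 / 3) := by gcongr
      _ ≤ D * M₀ * (δ / 2) := by
        refine mul_le_mul_of_nonneg_left ?_ hDM.le
        linarith
      _ = (δ * (32 * (D * M₀))) / 64 := by ring
      _ ≤ (δ * (32 * (D * M₀ + 1))) / 64 := by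
        gcongr
        linarith
      _ ≤ ε / 64 := by gcongr
  have h10 : D * ℓ / s - ε / 32 - ε / 64 ≤ (D * ℓ / s - 2 * (ε₁ * ℓ) / s) * (1 - δ ^ 2 / 3) := by
    have h11 : 0 ≤ 2 * (ε₁ * ℓ) / s * (δ ^ 2 / 3) := by positivity
    have e7 : (D * ℓ / s - 2 * (ε₁ * ℓ) / s) * (1 - δ ^ 2 / 3) =
        D * ℓ / s - 2 * (ε₁ * ℓ) / s - D * ℓ / s * (δ ^ 2 / 3) + 2 * (ε₁ * ℓ) / s * (δ ^ 2 / 3) := by ring
    rw [e7]
    linarith
  have h12 := mul_le_mul_of_nonneg_left h10 hpi0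
  have h13 : 2 / √Real.pi * (ε / 32 + ε / 64) ≤ 2 * (ε / 32 + ε / 64) := by gcongr
  have h14 : (k : ℝ) * (ε / (16 * k)) = ε / 16 := by field_simp
  have h15 : 2 / √Real.pi * (D * ℓ / s - ε / 32 - ε / 64) =
      2 / √Real.pi * (D * ℓ / s) - 2 / √Real.pi * (ε / 32 + ε / 64) := by ring
  rw [h15] at h12
  rw [h14]
  rw [mul_assoc (2 / √Real.pi) (D * ℓ / s - 2 * (ε₁ * ℓ) / s)] at h6
  linarith

/-- numbers for the error terms -/
theorem err_calc {k P V X U R Y : ℝ} (hk : 1 ≤ k) (hP : 1 ≤ P) (hV : 0 < V) (hU : 0 < U) (hR : 0 < R) (hUX : U ≤ X)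
    (hRU : R * U = X) (hY : 64 * ((k + 1) * P * (2 + (k + 1) ^ 2) * (1 + 2 * V) * X) ≤ Y) :
    P * (2 + (k + 1) ^ 2) * R * U ≤ Y / 64 ∧ (k + 1) * P * (2 + (k + 1) ^ 2) * R * U ≤ Y / 64 ∧ U ≤ Y / 64 ∧
      (1 + 2 * V) * U ≤ Y / 64 := by
  have hX : 0 < X := lt_of_lt_of_le hU hUX
  have i1 : (1 : ℝ) ≤ k + 1 := by linarith
  have i2 : (1 : ℝ) ≤ 2 + (k + 1) ^ 2 := by nlinarith
  have i3 : (1 : ℝ) ≤ 1 + 2 * V := by linarith
  have i4 : (1 : ℝ) ≤ (k + 1) * P := one_le_mul_of_one_le_of_one_le i1 hP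
  have i5 : (1 : ℝ) ≤ (k + 1) * P * (2 + (k + 1) ^ 2) := one_le_mul_of_one_le_of_one_le i4 i2
  have hY' : (k + 1) * P * (2 + (k + 1) ^ 2) * (1 + 2 * V) * X ≤ Y / 64 := by linarith
  have j2 : (k + 1) * P * (2 + (k + 1) ^ 2) * R * U ≤ Y / 64 := by
    rw [mul_assoc, hRU]
    refine le_trans ?_ hY'
    have h4 : 0 ≤ (k + 1) * P * (2 + (k + 1) ^ 2) * X := by positivity
    calc (k + 1) * P * (2 + (k + 1) ^ 2) * X ≤ (1 + 2 * V) * ((k + 1) * P * (2 + (k + 1) ^ 2) * X) :=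
          le_mul_of_one_le_left h4 i3
      _ = _ := by ring
  have j4 : (1 + 2 * V) * U ≤ Y / 64 := by
    refine le_trans ?_ hY'
    calc (1 + 2 * V) * U ≤ (1 + 2 * V) * X := by gcongr
      _ ≤ ((k + 1) * P * (2 + (k + 1) ^ 2)) * ((1 + 2 * V) * X) := le_mul_of_one_le_left (by positivity) i5
      _ = _ := by ring
  refine ⟨?_, j2, ?_, j4⟩
  · refine le_trans ?_ j2
    calc P * (2 + (k + 1) ^ 2) * R * U ≤ (k + 1) * (P * (2 + (k + 1) ^ 2) * R * U) := le_mul_of_one_le_left (by positivity) i1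
      _ = _ := by ring
  · refine le_trans ?_ j4
    exact le_mul_of_one_le_left hU.le i3

/-- growth facts -/
theorem grow {M₀ ρ δ c s t u r ℓ lt : ℝ} (hM₀ : 0 < M₀) (hρ : 0 < ρ) (hδ : 0 < δ) (hδ2 : δ ≤ 1 / 2) (hc0 : 0 < c)
    (hcρ : c ≤ ρ / 8)
    (hcδ : c ≤ δ / 8) (hs : 1 ≤ s) (ht : t = s ^ 2) (hlt : 0 ≤ lt) (hev : 100 * (M₀ + 1) * (1 + s + s * lt) ≤ c * t)
    (hℓ0 : 0 < ℓ) (hML : ℓ ≤ M₀ * s) (hu : u ≤ 42 * ℓ) (hr : t = u + r) :
    u ≤ δ / 8 * t ∧ t / 2 ≤ r ∧ (1 - δ) * t ≤ r ∧ u * lt ≤ ρ * r ∧ 3 + u / 2 + ℓ ≤ ρ * r ∧ 1 ≤ δ * s / 2 := by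
  have hMs : 0 < M₀ * s := by positivity
  have hslt : 0 ≤ s * lt := by positivity
  have hMslt : 0 ≤ M₀ * (s * lt) := by positivity
  have ht0 : 0 < t := by rw [ht]; positivity
  have e0 : 100 * (M₀ + 1) * (1 + s + s * lt) = 100 * M₀ + 100 + 100 * (M₀ * s) + 100 * s + 100 * (M₀ * (s * lt)) +
      100 * (s * lt) := by ring
  rw [e0] at hev
  have hct : c * t ≤ δ / 8 * t := by gcongr
  have hct2 : c * t ≤ ρ / 8 * t := by gcongr
  have hut : u ≤ δ / 8 * t := by linarith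
  have hδt : δ / 8 * t ≤ 1 / 16 * t := by
    refine mul_le_mul_of_nonneg_right ?_ ht0.le
    linarith
  have hr2 : t / 2 ≤ r := by linarith
  have hδt2 : 0 < δ * t := by positivity
  have hρr : ρ / 8 * t ≤ ρ * r := by
    calc ρ / 8 * t = ρ * (t / 2) / 4 := by ring
      _ ≤ ρ * r / 4 := by gcongr
      _ ≤ ρ * r := by
        have : 0 < ρ * r := by
          have : 0 < r := by linarith
          positivity
        linarith
  refine ⟨hut, hr2, ?_, ?_, ?_, ?_⟩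
  · linarith
  · calc u * lt ≤ 42 * ℓ * lt := by gcongr
      _ ≤ 42 * (M₀ * s) * lt := by gcongr
      _ = 42 * (M₀ * (s * lt)) := by ring
      _ ≤ c * t := by linarith
      _ ≤ ρ / 8 * t := hct2
      _ ≤ ρ * r := hρr
  · calc 3 + u / 2 + ℓ ≤ 3 + 42 * (M₀ * s) / 2 + M₀ * s := by linarith
      _ ≤ c * t := by linarith
      _ ≤ ρ / 8 * t := hct2
      _ ≤ ρ * r := hρr
  · have h3 : 100 * s ≤ δ / 8 * s * s := by
      have : δ / 8 * t = δ / 8 * s * s := by rw [ht]; ring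
      linarith
    have h4 : 100 ≤ δ / 8 * s := le_of_mul_le_mul_right h3 (by linarith)
    linarith

/-- numbers for the law in one class -/
theorem law_calc {k : ℕ} {P ε F Cr Ct : ℝ} {n : ℕ} {R : ℝ} (hP : P = ((k + 1 : ℕ) : ℝ) ^ (k + 1)) (hk : (1 : ℝ) ≤ k)
    (hP1 : 1 ≤ P) (hε : 0 < ε)
    (hl : |F - Cr * n| ≤ (((k + 1 : ℕ) : ℝ) ^ (k + 1)) * (ε / (16 * (k + 1) * P)) * n +
      (((k + 1 : ℕ) : ℝ) ^ (k + 1)) * (2 + ((k + 1 : ℕ) : ℝ) ^ 2) * R)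
    (hc : |Cr - Ct| ≤ ε / 8) :
    |F - Ct * n| ≤ (ε / 16 + ε / 8) * n + P * (2 + ((k : ℝ) + 1) ^ 2) * R := by
  have hn : (0 : ℝ) ≤ n := Nat.cast_nonneg n
  have hPe : ((k + 1 : ℕ) : ℝ) ^ (k + 1) * (ε / (16 * (k + 1) * P)) ≤ ε / 16 := by
    rw [← hP]
    have : P * (ε / (16 * (k + 1) * P)) = ε / 16 / (k + 1) := by field_simp
    rw [this]
    exact div_le_self (by positivity) (by linarith)
  have e : F - Ct * n = (F - Cr * n) + (Cr - Ct) * n := by ring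
  rw [e]
  refine (abs_add_le _ _).trans ?_
  rw [abs_mul, abs_of_nonneg hn]
  have h1 := mul_le_mul_of_nonneg_right hc hn
  have h5 := mul_le_mul_of_nonneg_right hPe hn
  rw [← hP] at hl h5
  push_cast at hl
  linarith

/-- numbers for the mean in one class -/
theorem mean_calc {k : ℕ} {P ε F Cr cE : ℝ} {n : ℕ} {R : ℝ} (hP : P = ((k + 1 : ℕ) : ℝ) ^ (k + 1)) (hk : (1 : ℝ) ≤ k)
    (hP1 : 1 ≤ P) (hε : 0 < ε)
    (hl : |F - Cr * n| ≤ (((k + 1 : ℕ) : ℝ) ^ (k + 1)) * (ε / (16 * (k + 1) * P)) * n +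
      (((k + 1 : ℕ) : ℝ) ^ (k + 1)) * (2 + ((k + 1 : ℕ) : ℝ) ^ 2) * R)
    (hc : cE - 5 * ε / 32 ≤ (k + 1) * Cr) :
    (cE - 7 * ε / 32) * n - (k + 1) * P * (2 + ((k : ℝ) + 1) ^ 2) * R ≤ (k + 1) * F := by
  have hn : (0 : ℝ) ≤ n := Nat.cast_nonneg n
  have h5 := (abs_le.1 hl).1
  have h6 := mul_le_mul_of_nonneg_right hc hn
  have hk0 : (0 : ℝ) ≤ k + 1 := by linarith
  have h7 := mul_le_mul_of_nonneg_left h5 hk0
  rw [← hP] at h7
  have hPe : ((k : ℝ) + 1) * (P * (ε / (16 * (k + 1) * P))) = ε / 16 := by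
    field_simp
  push_cast at h7
  have e1 : ((k : ℝ) + 1) * -(P * (ε / (16 * (k + 1) * P)) * n + P * (2 + ((k : ℝ) + 1) ^ 2) * R) =
      -(((k : ℝ) + 1) * (P * (ε / (16 * (k + 1) * P)))) * n - (k + 1) * P * (2 + ((k : ℝ) + 1) ^ 2) * R := by ring
  rw [e1, hPe] at h7
  have e2 : ((k : ℝ) + 1) * (F - Cr * n) = (k + 1) * F - (k + 1) * Cr * n := by ring
  rw [e2] at h7
  have e3 : (cE - 5 * ε / 32) * n = (cE - 7 * ε / 32) * n + ε / 16 * n := by ring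
  rw [e3] at h6
  linarith

theorem phi_le (k : ℕ) : ∀ c : ℕ, |min (c : ℝ) (k + 1) / (k + 1)| ≤ 1 := by
  intro c
  rw [abs_of_nonneg (by positivity), div_le_one (by positivity)]
  exact min_le_right _ _

theorem phi_card {α : Type} [DecidableEq α] {k : ℕ} (v : Fin (k + 1) → α) :
    ((univ.image v).card : ℝ) = ((k : ℝ) + 1) * (min ((univ.image v).card : ℝ) (k + 1) / (k + 1)) := by
  have h3 : (univ.image v).card ≤ k + 1 := by
    refine card_image_le.trans ?_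
    rw [card_univ, Fintype.card_fin]
  have h4 : ((univ.image v).card : ℝ) ≤ k + 1 := by exact_mod_cast h3
  rw [min_eq_left h4]
  field_simp

/-- job NetLaw -/
theorem netLaw (h0 : S_CwMean) (h1 : S_CwNet) (h2 : S_Net) : S_NetLaw := by
  classical
  intro γ hγ κ M₀ ε hκ hM₀ hε
  obtain ⟨hr1, hr2⟩ := rr_bounds hγ
  have hγ1 := hγ.1
  have hl2 : (0 : ℝ) < Real.log 2 := Real.log_pos (by norm_num)
  have hγr : 0 < γ * (rr γ - 1 / 2) := mul_pos (by linarith) (by linarith)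
  obtain ⟨D, hDD⟩ : ∃ D : ℝ, D = DD γ := ⟨_, rfl⟩
  have hD : 0 < D := by rw [hDD]; unfold DD; positivity
  have hDM : 0 < D * M₀ := mul_pos hD hM₀
  obtain ⟨δ₀, hδ₀, t₁, hcw⟩ := h1 (D * M₀) (ε / 8) hDM (by positivity)
  obtain ⟨δ, hδ⟩ : ∃ δ : ℝ, δ = min δ₀ (min (1 / 2) (ε / (32 * (D * M₀ + 1)))) := ⟨_, rfl⟩
  have hδp : 0 < δ := by rw [hδ]; positivity
  have hδ1 : δ ≤ δ₀ := by rw [hδ]; exact min_le_left _ _
  have hδ2 : δ ≤ 1 / 2 := by rw [hδ]; exact (min_le_right _ _).trans (min_le_left _ _)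
  have hδ3 : δ ≤ ε / (32 * (D * M₀ + 1)) := by rw [hδ]; exact (min_le_right _ _).trans (min_le_right _ _)
  obtain ⟨k, hk⟩ : ∃ k : ℕ, k = ⌈4 * (D * M₀) / δ⌉₊ + 1 := ⟨_, rfl⟩
  have hk1 : 1 ≤ k := by omega
  have hkr : (1 : ℝ) ≤ k := by exact_mod_cast hk1
  have hkδ : D * M₀ / k ≤ δ / 4 := by
    have h3 : 4 * (D * M₀) / δ ≤ k := by
      refine (Nat.le_ceil _).trans ?_
      rw [hk]
      push_cast
      linarith
    rw [div_le_iff₀ hδp] at h3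
    rw [div_le_iff₀ (by linarith)]
    linarith
  obtain ⟨P, hP⟩ : ∃ P : ℝ, P = ((k + 1 : ℕ) : ℝ) ^ (k + 1) := ⟨_, rfl⟩
  have hP1 : 1 ≤ P := by
    rw [hP]
    refine one_le_pow₀ ?_
    push_cast
    linarith
  obtain ⟨ρ, hρ0, t₂, hlaw⟩ := fam_law hfix (k + 1) (ε / (16 * (k + 1) * P)) (by positivity)
  obtain ⟨t₃, ht₃⟩ := pf_lim (show 0 < ε / (16 * k) by positivity)
  obtain ⟨ε₁, hε₁⟩ : ∃ ε₁ : ℝ, ε₁ = min (δ / (16 * M₀)) (min (D / (4 * k)) (min (ε / (64 * M₀))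
    (ε / (64 * (1 + 2 * (D * M₀)))))) := ⟨_, rfl⟩
  have hε₁0 : 0 < ε₁ := by rw [hε₁]; positivity
  have hε₁1 : ε₁ ≤ δ / (16 * M₀) := by rw [hε₁]; exact min_le_left _ _
  have hε₁2 : ε₁ ≤ D / (4 * k) := by rw [hε₁]; exact (min_le_right _ _).trans (min_le_left _ _)
  have hε₁3 : ε₁ ≤ ε / (64 * M₀) := by
    rw [hε₁]
    exact (min_le_right _ _).trans ((min_le_right _ _).trans (min_le_left _ _))
  have hε₁4 : ε₁ ≤ ε / (64 * (1 + 2 * (D * M₀))) := by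
    rw [hε₁]
    exact (min_le_right _ _).trans ((min_le_right _ _).trans (min_le_right _ _))
  rw [le_div_iff₀ (by positivity)] at hε₁1 hε₁2 hε₁3 hε₁4 hδ3
  obtain ⟨L₀, hnet⟩ := h2 γ hγ k hk1 ε₁ hε₁0
  obtain ⟨K, hK⟩ : ∃ K : ℕ, K = ⌈64 * ((k + 1) * P * (2 + (k + 1) ^ 2) * (1 + 2 * (D * M₀))) / ε⌉₊ + 1 := ⟨_, rfl⟩
  have hKε : 64 * ((k + 1) * P * (2 + (k + 1) ^ 2) * (1 + 2 * (D * M₀))) ≤ K * ε := by
    rw [← div_le_iff₀ hε]
    refine (Nat.le_ceil _).trans ?_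
    rw [hK]
    push_cast
    linarith
  obtain ⟨c, hc⟩ : ∃ c : ℝ, c = min ρ δ / 8 := ⟨_, rfl⟩
  have hc0 : 0 < c := by rw [hc]; positivity
  have hcρ : c ≤ ρ / 8 := by rw [hc]; have := min_le_left ρ δ; linarith
  have hcδ : c ≤ δ / 8 := by rw [hc]; have := min_le_right ρ δ; linarith
  obtain ⟨t₄, ht₄⟩ := ev (100 * (M₀ + 1)) c hc0
  obtain ⟨t₅, ht₅⟩ : ∃ t₅ : ℕ, t₅ = ⌈(Real.log (L₀ + 1) / κ) ^ 2⌉₊ := ⟨_, rfl⟩
  refine ⟨k, t₁ ⊔ (2 * t₂) ⊔ (2 * t₃) ⊔ t₄ ⊔ t₅ ⊔ 2, K, fun t ht L hL hκL hML => ?_⟩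
  simp only [sup_le_iff] at ht
  obtain ⟨⟨⟨⟨⟨g1, g2⟩, g3⟩, g4⟩, g5⟩, g6⟩ := ht
  have hev := ht₄ t g4
  rw [← hDD]
  obtain ⟨ℓ, hℓ⟩ : ∃ ℓ : ℝ, ℓ = Real.log L := ⟨_, rfl⟩
  obtain ⟨s, hs⟩ : ∃ s : ℝ, s = √(t : ℝ) := ⟨_, rfl⟩
  have hs2 : (t : ℝ) = s ^ 2 := by rw [hs, Real.sq_sqrt (Nat.cast_nonneg t)]
  have htr : (2 : ℝ) ≤ t := by exact_mod_cast g6
  have hs1 : 1 ≤ s := by
    rw [hs, Real.one_le_sqrt]
    linarith
  have hs0 : 0 < s := by linarith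
  have hlt : 0 ≤ Real.log t := Real.log_nonneg (by linarith)
  rw [← hs] at hev hκL hML
  rw [← hℓ] at hκL hML
  have hℓ0 : 0 < ℓ := lt_of_lt_of_le (by positivity) hκL
  have hLr : (1 : ℝ) ≤ L := by exact_mod_cast hL
  have hLL : L₀ ≤ L := by
    have h3 : Real.log (L₀ + 1) / κ ≤ s := by
      by_cases hneg : Real.log (L₀ + 1) / κ ≤ 0
      · linarith
      · push Not at hneg
        have h4 : (Real.log (L₀ + 1) / κ) ^ 2 ≤ s ^ 2 := by
          rw [← hs2]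
          refine (Nat.le_ceil _).trans ?_
          rw [← ht₅]
          exact_mod_cast g5
        exact le_of_sq_le_sq h4 (by linarith)
    rw [div_le_iff₀ hκ] at h3
    have h4 : Real.log (L₀ + 1) ≤ Real.log L := by rw [← hℓ]; linarith
    have h5 : ((L₀ : ℝ) + 1) ≤ L := (Real.log_le_log_iff (by positivity) (by linarith)).1 h4
    have h6 : L₀ + 1 ≤ L := by exact_mod_cast h5
    omega
  obtain ⟨u, hu, j, hj1, hj2, hj3⟩ := hnet L hLL
  rw [← hℓ, ← hDD] at hj3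
  rw [← hℓ] at hu
  have hu0 : (0 : ℝ) ≤ u := Nat.cast_nonneg u
  obtain ⟨w1, w2, w3, w4, w5, w6⟩ := grow (r := (t : ℝ) - u) hM₀ hρ0 hδp hδ2 hc0 hcρ hcδ hs1 hs2 hlt hev hℓ0 hML hu
    (by ring)
  have hut2 : u ≤ t := by
    have : (u : ℝ) ≤ t := by linarith
    exact_mod_cast this
  obtain ⟨r, hr⟩ := Nat.exists_eq_add_of_le hut2
  have hrr : (t : ℝ) - u = r := by
    have : (t : ℝ) = u + r := by exact_mod_cast hr
    linarith
  rw [hrr] at w2 w3 w4 w5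
  have hrt : (r : ℝ) ≤ t := by linarith
  have hr2' : t ≤ 2 * r := by
    have : (t : ℝ) ≤ 2 * r := by linarith
    exact_mod_cast this
  have ht0 : (0 : ℝ) < t := by linarith
  have hrδ : (1 - δ₀) * t ≤ r := by
    have : (1 - δ₀) * t ≤ (1 - δ) * t := by gcongr
    linarith
  have hr1' : 1 ≤ r := by omega
  have hoff : ∀ x : ℤ, Off ρ r (fun i => oc u (x + j i x)) (fun i => T^[u] (x + j i x)) := fun x =>
    off_all u r t L hL hr hr1' x (fun i => j i x) (fun i => hj1 i x) w4 (by rw [← hℓ]; exact w5)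
  refine ⟨j, hj1, fun M W hW => ?_⟩
  have hW' : (K : ℝ) * 2 ^ t ≤ W := by exact_mod_cast hW
  have hW0 : (0 : ℝ) ≤ W := Nat.cast_nonneg W
  have h2u : (2 : ℝ) ^ u ≤ 2 ^ t := pow_le_pow_right₀ (by norm_num) hut2
  have h2t : (2 : ℝ) ^ r * 2 ^ u = 2 ^ t := by rw [← pow_add, hr, add_comm]
  have h2t0 : (0 : ℝ) < 2 ^ t := by positivity
  have hQ : 64 * ((k + 1) * P * (2 + (k + 1) ^ 2) * (1 + 2 * (D * M₀)) * 2 ^ t) ≤ ε * W := by
    calc 64 * ((k + 1) * P * (2 + (k + 1) ^ 2) * (1 + 2 * (D * M₀)) * 2 ^ t) =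
        64 * ((k + 1) * P * (2 + (k + 1) ^ 2) * (1 + 2 * (D * M₀))) * 2 ^ t := by ring
      _ ≤ K * ε * 2 ^ t := by gcongr
      _ = ε * (K * 2 ^ t) := by ring
      _ ≤ ε * W := by gcongr
  obtain ⟨q1, q2, q3, q4⟩ := err_calc hkr hP1 hDM (show (0 : ℝ) < 2 ^ u by positivity) (show (0 : ℝ) < 2 ^ r by positivity)
    h2u h2t hQ
  have q5 : ε₁ * W ≤ ε * W / 64 := by
    have h3 : ε₁ * 64 ≤ ε := by
      have : 0 ≤ ε₁ * (D * M₀) := by positivity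
      linarith
    have := mul_le_mul_of_nonneg_right h3 hW0
    linarith
  have q6 : 0 ≤ ε * W := by positivity
  -- the bad classes
  obtain ⟨S, hS⟩ : ∃ S : Set ℤ, S = {x : ℤ | ∃ i : Fin (k + 1), ε₁ * ℓ < |(oc u (x + j i x) : ℝ) -
    ((u : ℝ) / 2 - ℓ / (2 * Real.log 2) + ((i : ℕ) : ℝ) / k * (D * ℓ))|} := ⟨_, rfl⟩
  rw [← hS, EE_ind] at hj3
  obtain ⟨B, hB⟩ : ∃ B : Finset ℕ, B = (range (2 ^ u)).filter (fun x : ℕ => (x : ℤ) ∈ S) := ⟨_, rfl⟩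
  rw [← hB] at hj3
  have hBr : B ⊆ range (2 ^ u) := by rw [hB]; exact filter_subset _ _
  have hgood : ∀ x ∈ range (2 ^ u), x ∉ B → ∀ i : Fin (k + 1), |(oc u ((x : ℤ) + j i x) : ℝ) -
      (((u : ℝ) / 2 - ℓ / (2 * Real.log 2)) + ((i : ℕ) : ℝ) / k * (D * ℓ))| ≤ ε₁ * ℓ := by
    intro x hx hxB i
    by_contra hcon
    push Not at hcon
    refine hxB ?_
    rw [hB, mem_filter, hS]
    exact ⟨hx, i, hcon⟩
  have hDk : D * ℓ / k ≤ δ / 4 * s := by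
    calc D * ℓ / k ≤ D * (M₀ * s) / k := by gcongr
      _ = D * M₀ / k * s := by ring
      _ ≤ δ / 4 * s := by gcongr
  have hεℓ : 2 * (ε₁ * ℓ) ≤ δ / 8 * s := by
    calc 2 * (ε₁ * ℓ) ≤ 2 * (ε₁ * (M₀ * s)) := by gcongr
      _ = 2 * (ε₁ * (16 * M₀)) / 16 * s := by ring
      _ ≤ 2 * δ / 16 * s := by gcongr
      _ = δ / 8 * s := by ring
  have hδs : 0 < δ * s := by positivity
  -- facts for the good classes
  have hfacts : ∀ x ∈ range (2 ^ u), x ∉ B → (∀ i : Fin k, ((oc u ((x : ℤ) + j i.succ x) : ℝ) - oc u ((x : ℤ) + j i.castSucc x)) ≤ δ * s) ∧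
      (Monotone fun i : Fin (k + 1) => ((oc u ((x : ℤ) + j i x) : ℕ) : ℤ)) ∧
      |((oc u ((x : ℤ) + j (Fin.last k) x) : ℝ) - oc u ((x : ℤ) + j 0 x)) - D * ℓ| ≤ 2 * (ε₁ * ℓ) := by
    intro x hx hxB
    obtain ⟨f1, f2⟩ := good_facts hk1 (fun i => oc u ((x : ℤ) + j i x)) _ _ _ (hgood x hx hxB)
    have hDk2 : 2 * (ε₁ * ℓ) ≤ D * ℓ / k := by
      rw [le_div_iff₀ (by linarith)]
      calc 2 * (ε₁ * ℓ) * k = (ε₁ * (4 * k)) * ℓ / 2 := by ring
        _ ≤ D * ℓ / 2 := by gcongr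
        _ ≤ D * ℓ := by
          have : 0 < D * ℓ := by positivity
          linarith
    refine ⟨fun i => ?_, ?_, f2⟩
    · have := (abs_le.1 (f1 i)).2
      linarith
    · rw [Fin.monotone_iff_le_succ]
      intro i
      have h3 := (abs_le.1 (f1 i)).1
      have h4 : (oc u ((x : ℤ) + j i.castSucc x) : ℝ) ≤ oc u ((x : ℤ) + j i.succ x) := by linarith
      exact_mod_cast h4
  obtain ⟨m, hm⟩ : ∃ m : ℕ, m = ⌊D * ℓ⌋₊ := ⟨_, rfl⟩
  have hDℓ : 0 < D * ℓ := by positivity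
  have hm1 : (m : ℝ) ≤ D * ℓ := by rw [hm]; exact Nat.floor_le hDℓ.le
  have hm2 : D * ℓ < m + 1 := by rw [hm]; exact Nat.lt_floor_add_one _
  have hmM : (m : ℝ) ≤ D * M₀ * √t := by
    rw [← hs]
    calc (m : ℝ) ≤ D * ℓ := hm1
      _ ≤ D * (M₀ * s) := by gcongr
      _ = D * M₀ * s := by ring
  rw [← hℓ, ← hm, ← hs]
  constructor
  · intro φ hφ
    have hw := window u r j hj2 φ M W
    rw [← hr] at hw
    rw [hw]
    have hcl : |CG (fun z => φ (univ.image z).card) t (fun i : Fin (m + 1) => (i : ℤ))| ≤ 1 := CG_abs (fun z => hφ _) t _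
    have hav := avg_law u W M B hBr (fun x => ∑ N ∈ Ico (cl u x M) (cl u x M + cn u x M W),
      φ (univ.image (fun i => T^[r] (3 ^ oc u ((x : ℤ) + j i x) * N + T^[u] ((x : ℤ) + j i x)))).card)
      (CG (fun z => φ (univ.image z).card) t (fun i : Fin (m + 1) => (i : ℤ))) (ε / 16 + ε / 8)
      (P * (2 + (k + 1) ^ 2) * 2 ^ r) ε₁ hcl (by positivity) (by positivity) hj3 ?_ ?_
    · refine hav.trans ?_
      linarith
    · intro x hx hxB
      obtain ⟨f1, f2, f3⟩ := hfacts x hx hxB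
      have hl := hlaw r (by omega) _ _ (hoff x) φ hφ (cl u x M) (cn u x M W)
      have hδ₀s : δ * s ≤ δ₀ * s := by gcongr
      have hcc := hcw r t g1 (by omega) hrδ m hmM k _ f2 (by
        push_cast
        rw [← hs]
        have h3 := abs_le.1 f3
        rw [abs_le]
        constructor <;> linarith [h3.1, h3.2]) (by
        intro i
        push_cast
        rw [← hs]
        exact (f1 i).trans hδ₀s) φ hφ
      exact law_calc hP hkr hP1 hε hl hcc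
    · intro x _
      refine (abs_sum_le_sum_abs _ _).trans ((sum_le_sum fun N _ => hφ _).trans ?_)
      rw [sum_const, Int.card_Ico, nsmul_eq_mul, mul_one]
      exact_mod_cast (by omega : (cl u x M + (cn u x M W : ℤ) - cl u x M).toNat ≤ cn u x M W)
  · have hw := window u r j hj2 (fun c : ℕ => (c : ℝ)) M W
    rw [← hr] at hw
    rw [hw]
    obtain ⟨cE, hcE⟩ : ∃ cE : ℝ, cE = 1 + 2 / √Real.pi * (D * ℓ / s) := ⟨_, rfl⟩
    have hpi : 2 / √Real.pi ≤ 2 := by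
      have h6 : (1 : ℝ) ≤ √Real.pi := by
        rw [Real.one_le_sqrt]
        linarith [Real.pi_gt_three]
      rw [div_le_iff₀ (by linarith)]
      linarith
    have hℓs : ℓ / s ≤ M₀ := by
      rw [div_le_iff₀ (by linarith)]
      exact hML
    have hcE0 : 0 ≤ cE := by rw [hcE]; positivity
    have hcE1 : cE ≤ 1 + 2 * (D * M₀) := by
      rw [hcE]
      have h3 : D * ℓ / s ≤ D * M₀ := by
        rw [mul_div_assoc]
        gcongr
      have h4 : 0 ≤ D * ℓ / s := by positivity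
      have h5 : 2 / √Real.pi * (D * ℓ / s) ≤ 2 * (D * M₀) := mul_le_mul hpi h3 h4 (by norm_num)
      linarith
    rw [← hcE]
    have hav := avg_mean u W M B hBr (fun x => ∑ N ∈ Ico (cl u x M) (cl u x M + cn u x M W),
      ((univ.image (fun i => T^[r] (3 ^ oc u ((x : ℤ) + j i x) * N + T^[u] ((x : ℤ) + j i x)))).card : ℝ))
      cE (7 * ε / 32) ((k + 1) * P * (2 + (k + 1) ^ 2) * 2 ^ r) ε₁ hcE0 (by positivity) (by positivity) hj3 ?_ ?_
    · refine le_trans ?_ hav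
      have q7 : cE * (ε₁ * W + 2 ^ u) ≤ ε * W / 64 + ε * W / 64 := by
        calc cE * (ε₁ * W + 2 ^ u) ≤ (1 + 2 * (D * M₀)) * (ε₁ * W + 2 ^ u) := by gcongr
          _ = (ε₁ * (64 * (1 + 2 * (D * M₀)))) * W / 64 + (1 + 2 * (D * M₀)) * 2 ^ u := by ring
          _ ≤ ε * W / 64 + ε * W / 64 := by gcongr
      linarith
    · intro x hx hxB
      obtain ⟨f1, f2, f3⟩ := hfacts x hx hxB
      have hl := hlaw r (by omega) _ _ (hoff x) (fun c => min (c : ℝ) (k + 1) / (k + 1)) (phi_le k) (cl u x M) (cn u x M W)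
      have hml := mean_low h0 (k := k) (r := r) (t := t) (by omega) hr1' (ε₃ := ε / (16 * k)) (d := δ)
        (fun z hz => (ht₃ r (by omega) z hz).1) _ f2 (by
          intro i
          push_cast
          rw [← hs]
          exact f1 i)
      have e4 : (fun z : Fin (k + 1) → ℤ => ((univ.image z).card : ℝ)) =
          fun z => ((k : ℝ) + 1) * (min ((univ.image z).card : ℝ) (k + 1) / (k + 1)) := by
        funext z
        exact phi_card z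
      rw [e4, CG_mul] at hml
      have e5 : ∑ N ∈ Ico (cl u x M) (cl u x M + cn u x M W),
          ((univ.image (fun i => T^[r] (3 ^ oc u ((x : ℤ) + j i x) * N + T^[u] ((x : ℤ) + j i x)))).card : ℝ) =
          ((k : ℝ) + 1) * ∑ N ∈ Ico (cl u x M) (cl u x M + cn u x M W),
            min ((univ.image (fun i => T^[r] (3 ^ oc u ((x : ℤ) + j i x) * N + T^[u] ((x : ℤ) + j i x)))).card : ℝ) (k + 1) / (k + 1) := by
        rw [mul_sum]
        exact sum_congr rfl fun N _ => phi_card _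
      rw [e5]
      push_cast at hml
      rw [← hs] at hml
      have hlow := (low_calc hk1 hD hM₀ hε hε₁0 hδp hδ2 hℓ0 hs0 hℓs hε₁3 hδ3 (abs_le.1 f3).1).trans hml
      rw [← hcE] at hlow
      exact mean_calc hP hkr hP1 hε hl hlow
    · intro x _
      exact sum_nonneg fun N _ => Nat.cast_nonneg _

end Pool.Agent.Q14.BT
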