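import Pool.Agent.Q74.BT.Stm3
import Pool.Agent.Q153.BT.Kap
import Pool.Agent.Q14.SF.Fix
import Pool.Agent.Q14.SF.Conv
import Pool.Agent.Q16.BT.Pin
import Pool.Agent.Q74.BL.LowP

/-!
# Project BT (helper74), part 3: tools for job NetLaw
-/

set_option autoImplicit false

namespace Pool.Agent.Q14.BT

open Finset
open Pool.Agent.Q158.Pair (T surv nc)
open Pool.Agent.Q74.AR (oc bE oc_per oc_le Td ocd)
open Pool.Agent.Q74.KP (EE Erf pq EE_mono EE_add EE_mul EE_const EE_sum oc_add oc_last Vd Yd yy Lv)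
open Pool.Agent.Q74.BL (nx ww EE_split T_add cl cn cn_ge sum_cn sum_classes)
open Pool.Agent.Q74.BT
open Pool.Agent.Q74.SF
open Pool.Agent.Q14.SF (Td_one)
open Pool.Agent.H395R2.G3 (rr FF rate)

section pat

variable {k : ℕ} {α : Type}

open Classical in
/-- canonical form of a pattern -/
noncomputable def can (v : Fin k → α) (i : Fin k) : Fin k :=
  (univ.filter (fun j => v j = v i)).min' ⟨i, by simp⟩

theorem can_val (v : Fin k → α) (i : Fin k) : v (can v i) = v i := by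
  classical
  have h := (univ.filter (fun j => v j = v i)).min'_mem ⟨i, by simp⟩
  rw [mem_filter] at h
  exact h.2

theorem can_eq (v : Fin k → α) {i j : Fin k} (h : v i = v j) : can v i = can v j := by
  classical
  unfold can
  congr 1
  ext l
  rw [mem_filter, mem_filter, h]

theorem can_iff (v : Fin k → α) (i j : Fin k) : can v i = can v j ↔ v i = v j := by
  constructor
  · intro h
    rw [← can_val v i, h, can_val v j]
  · exact can_eq v

theorem can_congr {β : Type} (v : Fin k → α) (w : Fin k → β) (h : ∀ i j, v i = v j ↔ w i = w j) : can v = can w := by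
  classical
  funext i
  unfold can
  congr 1
  ext l
  rw [mem_filter, mem_filter, h]

theorem can_can (v : Fin k → α) : can (can v) = can v := can_congr _ _ (can_iff v)

open Classical in
/-- weights: the functions of the number of values are combinations of patterns -/
noncomputable def wt (φ : ℕ → ℝ) (π : Fin k → Fin k) : ℝ := if can π = π then φ (univ.image π).card else 0

theorem wt_le {φ : ℕ → ℝ} (h : ∀ x, |φ x| ≤ 1) (π : Fin k → Fin k) : |wt φ π| ≤ 1 := by
  unfold wt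
  split_ifs
  · exact h _
  · rw [abs_zero]; exact zero_le_one

theorem card_can [DecidableEq α] (v : Fin k → α) : (univ.image v).card = (univ.image (can v)).card := by
  classical
  have h1 : (univ.image v) = (univ.image (can v)).image v := by
    ext y
    simp only [mem_image, mem_univ, true_and]
    constructor
    · rintro ⟨i, rfl⟩
      exact ⟨can v i, ⟨i, rfl⟩, can_val v i⟩
    · rintro ⟨_, ⟨i, rfl⟩, rfl⟩
      exact ⟨_, rfl⟩
  rw [h1]
  refine card_image_of_injOn ?_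
  intro x hx y hy hxy
  rw [mem_coe, mem_image] at hx hy
  obtain ⟨i, -, rfl⟩ := hx
  obtain ⟨j, -, rfl⟩ := hy
  exact can_eq v ((can_val v i).symm.trans (hxy.trans (can_val v j)))

theorem wt_sum [DecidableEq α] (φ : ℕ → ℝ) (v : Fin k → α) :
    φ (univ.image v).card = ∑ π : Fin k → Fin k, wt φ π * pat π v := by
  classical
  rw [sum_eq_single (can v)]
  · unfold wt
    rw [if_pos (can_can v)]
    have h1 : pat (can v) v = 1 := by
      unfold pat
      rw [if_pos]
      intro i j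
      exact (can_iff v i j).symm
    rw [h1, mul_one, card_can v]
  · intro π _ hπ
    unfold wt
    split_ifs with h
    · have h1 : pat π v = 0 := by
        unfold pat
        rw [if_neg]
        intro hc
        refine hπ ?_
        rw [← h]
        exact (can_congr v π hc).symm
      rw [h1, mul_zero]
    · rw [zero_mul]
  · intro h
    exact absurd (mem_univ _) h

/-- the number of values of the walkers -/
theorem CG_wt (φ : ℕ → ℝ) (t : ℕ) (a : Fin k → ℤ) :
    CG (fun z => φ (univ.image z).card) t a = ∑ π : Fin k → Fin k, wt φ π * CG (fun z => pat π z * 1) t a := by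
  have h1 : (fun z : Fin k → ℤ => φ (univ.image z).card) = fun z => ∑ π : Fin k → Fin k, wt φ π * pat π z := by
    funext z
    exact wt_sum φ z
  rw [h1, CG_sum]
  refine sum_congr rfl fun π _ => ?_
  rw [CG_mul]
  simp only [mul_one]

end pat

/-- the law of the number of values for one family -/
theorem fam_law (hF : S_Fix) (k : ℕ) (ε : ℝ) (hε : 0 < ε) : ∃ ρ : ℝ, 0 < ρ ∧ ∃ t₀ : ℕ, ∀ r : ℕ, t₀ ≤ r →
    ∀ (a : Fin k → ℕ) (b : Fin k → ℤ), Off ρ r a b → ∀ φ : ℕ → ℝ, (∀ x, |φ x| ≤ 1) → ∀ (M : ℤ) (W : ℕ),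
    |∑ N ∈ Ico M (M + W), φ (univ.image (fun i => T^[r] (3 ^ a i * N + b i))).card -
      CG (fun z => φ (univ.image z).card) r (fun i => (a i : ℤ)) * W| ≤
      ((k : ℝ) ^ k) * ε * W + ((k : ℝ) ^ k) * (2 + (k : ℝ) ^ 2) * 2 ^ r := by
  obtain ⟨ρ, hρ, t₀, ht₀⟩ := hF k 0 ε le_rfl hε
  refine ⟨ρ, hρ, t₀, fun r hr a b hoff φ hφ M W => ?_⟩
  have h1 : ∀ N : ℤ, φ (univ.image (fun i => T^[r] (3 ^ a i * N + b i))).card =
      ∑ π : Fin k → Fin k, wt φ π * (pat π (Vd 1 a b r (1 * N + 0)) * 1) := by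
    intro N
    rw [wt_sum φ (fun i => T^[r] (3 ^ a i * N + b i))]
    refine sum_congr rfl fun π _ => ?_
    rw [mul_one]
    have e : (Vd 1 a b r (1 * N + 0)) = fun i => T^[r] (3 ^ a i * N + b i) := by
      funext i
      unfold Vd Yd
      rw [Td_one]
      ring_nf
    rw [e]
  have h2 : ∑ N ∈ Ico M (M + W), φ (univ.image (fun i => T^[r] (3 ^ a i * N + b i))).card =
      ∑ π : Fin k → Fin k, wt φ π * ∑ N ∈ Ico M (M + W), (pat π (Vd 1 a b r (1 * N + 0)) * 1) := by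
    rw [sum_congr rfl fun N _ => h1 N, sum_comm]
    refine sum_congr rfl fun π _ => ?_
    rw [mul_sum]
  rw [h2, CG_wt, sum_mul, ← sum_sub_distrib]
  have h3 : ∀ π : Fin k → Fin k, |wt φ π * ∑ N ∈ Ico M (M + W), (pat π (Vd 1 a b r (1 * N + 0)) * 1) -
      wt φ π * CG (fun z => pat π z * 1) r (fun i => (a i : ℤ)) * W| ≤ ε * W + (2 + (k : ℝ) ^ 2) * 2 ^ r := by
    intro π
    have c1 := Pool.Agent.Q14.SF.conv k 1 rfl 1 0 rfl M W r a b π (fun _ => 1) (fun _ => by simp)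
    have c2 := ht₀ r hr a b hoff π (fun _ => 1) (fun _ => by simp) (fun z w => by simp)
    have e : wt φ π * ∑ N ∈ Ico M (M + W), (pat π (Vd 1 a b r (1 * N + 0)) * 1) -
        wt φ π * CG (fun z => pat π z * 1) r (fun i => (a i : ℤ)) * W =
        wt φ π * ((∑ N ∈ Ico M (M + W), (pat π (Vd 1 a b r (1 * N + 0)) * 1) -
          EE r (fun n => pat π (Vv a b r n) * 1) * W) +
          (EE r (fun n => pat π (Vv a b r n) * 1) - CG (fun z => pat π z * 1) r (fun i => (a i : ℤ))) * W) := by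
      ring
    rw [e, abs_mul]
    refine (mul_le_of_le_one_left (abs_nonneg _) (wt_le hφ π)).trans ?_
    refine (abs_add_le _ _).trans ?_
    rw [abs_mul, abs_of_nonneg (Nat.cast_nonneg W : (0 : ℝ) ≤ W)]
    have c3 := mul_le_mul_of_nonneg_right c2 (Nat.cast_nonneg W : (0 : ℝ) ≤ W)
    linarith
  refine (abs_sum_le_sum_abs _ _).trans ((sum_le_sum fun π _ => h3 π).trans ?_)
  rw [sum_const, card_univ, Fintype.card_fun, Fintype.card_fin, nsmul_eq_mul]
  push_cast
  exact le_of_eq (by ring)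

/-- the deviation from the main line -/
theorem T_dev (x : ℤ) (s : ℕ) : |((T^[s] x : ℤ) : ℝ) - 3 ^ oc s x * x / 2 ^ s| + 1 ≤ (3 / 2) ^ s := by
  induction s with
  | zero => simp [oc]
  | succ s ih =>
    rw [Function.iterate_succ_apply']
    have h1 := oc_last s x
    rcases Int.emod_two_eq_zero_or_one (T^[s] x) with h | h
    · rw [if_neg (by omega), add_zero] at h1
      have h2 : oc (s + 1) x = oc s x := by exact_mod_cast h1
      have h3 : ((T (T^[s] x) : ℤ) : ℝ) = ((T^[s] x : ℤ) : ℝ) / 2 := by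
        obtain ⟨m, hm⟩ : ∃ m, T^[s] x = 2 * m := ⟨T^[s] x / 2, by omega⟩
        rw [hm, Pool.Agent.Q158.Pair.T_even]
        push_cast
        ring
      rw [h2, h3]
      have e : ((T^[s] x : ℤ) : ℝ) / 2 - 3 ^ oc s x * (x : ℝ) / 2 ^ (s + 1) =
          (((T^[s] x : ℤ) : ℝ) - 3 ^ oc s x * x / 2 ^ s) / 2 := by
        rw [pow_succ]
        ring
      rw [e, abs_div, abs_of_pos (by norm_num : (0 : ℝ) < 2)]
      have h4 : (1 : ℝ) ≤ (3 / 2) ^ s := one_le_pow₀ (by norm_num)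
      rw [pow_succ (3 / 2 : ℝ)]
      linarith
    · rw [if_pos h] at h1
      have h2 : oc (s + 1) x = oc s x + 1 := by exact_mod_cast h1
      have h3 : ((T (T^[s] x) : ℤ) : ℝ) = (3 * ((T^[s] x : ℤ) : ℝ) + 1) / 2 := by
        obtain ⟨m, hm⟩ : ∃ m, T^[s] x = 2 * m + 1 := ⟨T^[s] x / 2, by omega⟩
        rw [hm, Pool.Agent.Q158.Pair.T_odd]
        push_cast
        ring
      rw [h2, h3]
      have e : (3 * ((T^[s] x : ℤ) : ℝ) + 1) / 2 - 3 ^ (oc s x + 1) * (x : ℝ) / 2 ^ (s + 1) =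
          3 / 2 * (((T^[s] x : ℤ) : ℝ) - 3 ^ oc s x * x / 2 ^ s) + 1 / 2 := by
        rw [pow_succ, pow_succ]
        field_simp
        ring
      rw [e]
      refine (add_le_add_left (abs_add_le _ _) 1).trans ?_
      rw [abs_mul, abs_of_pos (by norm_num : (0 : ℝ) < 3 / 2), abs_of_pos (by norm_num : (0 : ℝ) < 1 / 2)]
      rw [pow_succ (3 / 2 : ℝ)]
      linarith

/-- offsets of the forms of a block -/
theorem dev_block (u L : ℕ) (x : ℤ) (j : ℕ) (hj : j < L) :
    |((T^[u] (x + j) : ℤ) : ℝ) - 3 ^ oc u (x + j) * (x / 2 ^ u)| ≤ (3 / 2) ^ u * (L + 1) := by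
  have h1 := T_dev (x + j) u
  have h2 : ((T^[u] (x + j) : ℤ) : ℝ) - 3 ^ oc u (x + j) * (x / 2 ^ u) =
      (((T^[u] (x + j) : ℤ) : ℝ) - 3 ^ oc u (x + j) * ((x + j : ℤ) : ℝ) / 2 ^ u) + 3 ^ oc u (x + j) * j / 2 ^ u := by
    push_cast
    ring
  rw [h2]
  refine (abs_add_le _ _).trans ?_
  have h3 : |(3 : ℝ) ^ oc u (x + j) * j / 2 ^ u| ≤ (3 / 2) ^ u * L := by
    rw [abs_of_nonneg (by positivity), div_pow]
    have h4 : (3 : ℝ) ^ oc u (x + j) ≤ 3 ^ u := pow_le_pow_right₀ (by norm_num) (oc_le u _)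
    have h5 : (j : ℝ) ≤ L := by exact_mod_cast hj.le
    calc (3 : ℝ) ^ oc u (x + j) * j / 2 ^ u ≤ 3 ^ u * L / 2 ^ u := by gcongr
      _ = 3 ^ u / 2 ^ u * L := by ring
  linarith

theorem off_block (u L : ℕ) (x : ℤ) (i j : ℕ) (hi : i < L) (hj : j < L) (hij : oc u (x + i) ≤ oc u (x + j)) :
    |((T^[u] (x + j) : ℤ) : ℝ) - 3 ^ (oc u (x + j) - oc u (x + i)) * ((T^[u] (x + i) : ℤ) : ℝ)| ≤
      3 ^ (oc u (x + j) - oc u (x + i)) * (2 * ((3 / 2) ^ u * (L + 1))) := by
  have h1 := dev_block u L x i hi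
  have h2 := dev_block u L x j hj
  obtain ⟨d, hd⟩ := Nat.exists_eq_add_of_le hij
  have hd2 : oc u (x + j) - oc u (x + i) = d := by omega
  rw [hd2]
  have e : ((T^[u] (x + j) : ℤ) : ℝ) - 3 ^ d * ((T^[u] (x + i) : ℤ) : ℝ) =
      (((T^[u] (x + j) : ℤ) : ℝ) - 3 ^ oc u (x + j) * (x / 2 ^ u)) -
      3 ^ d * (((T^[u] (x + i) : ℤ) : ℝ) - 3 ^ oc u (x + i) * (x / 2 ^ u)) := by
    rw [hd, pow_add]
    ring
  rw [e]
  refine (abs_sub _ _).trans ?_
  rw [abs_mul, abs_of_nonneg (by positivity : (0 : ℝ) ≤ 3 ^ d)]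
  have h3 : (1 : ℝ) ≤ 3 ^ d := one_le_pow₀ (by norm_num)
  have h4 : (0 : ℝ) ≤ (3 / 2) ^ u * (L + 1) := by positivity
  have h5 : (3 : ℝ) ^ d * |((T^[u] (x + i) : ℤ) : ℝ) - 3 ^ oc u (x + i) * (x / 2 ^ u)| ≤ 3 ^ d * ((3 / 2) ^ u * (L + 1)) := by
    gcongr
  nlinarith

/-- the error function at small arguments -/
theorem Erf_low {x : ℝ} (hx : 0 ≤ x) : 2 / √Real.pi * (x - x ^ 3 / 3) ≤ Erf x := by
  unfold Erf
  refine mul_le_mul_of_nonneg_left ?_ (by positivity)
  have hcont : Continuous (fun y : ℝ => Real.exp (-y ^ 2)) := by fun_prop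
  have hcont2 : Continuous (fun y : ℝ => 1 - y ^ 2) := by fun_prop
  have h1 : ∫ y in (0 : ℝ)..x, (1 - y ^ 2) ≤ ∫ y in (0 : ℝ)..x, Real.exp (-y ^ 2) := by
    refine intervalIntegral.integral_mono_on hx (hcont2.intervalIntegrable _ _) (hcont.intervalIntegrable _ _) ?_
    intro y _
    have := Real.add_one_le_exp (-y ^ 2)
    linarith
  refine le_trans (le_of_eq ?_) h1
  rw [intervalIntegral.integral_sub (by simp) ((continuous_pow 2).intervalIntegrable _ _), integral_pow]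
  simp
  ring

/-- the sum of the numbers of bases over a bad set of classes -/
theorem bad_sum (u W : ℕ) (M : ℤ) (B : Finset ℕ) (hB : B ⊆ range (2 ^ u)) :
    ∑ x ∈ B, (cn u x M W : ℝ) ≤ B.card / 2 ^ u * W + 2 ^ u := by
  have h1 := sum_cn u M W
  rw [← sum_sdiff hB] at h1
  have h2 : ∀ x ∈ range (2 ^ u) \ B, (W : ℝ) / 2 ^ u - 1 ≤ cn u x M W := by
    intro x _
    have h3 := cn_ge u x M W
    have h4 : (W : ℝ) < 2 ^ u * (cn u x M W + 1) := by exact_mod_cast h3
    rw [sub_le_iff_le_add, div_le_iff₀ (by positivity)]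
    linarith
  have h3 := card_nsmul_le_sum _ _ _ h2
  rw [nsmul_eq_mul, card_sdiff_of_subset hB, card_range] at h3
  have h5 : B.card ≤ 2 ^ u := by
    have := card_le_card hB
    rwa [card_range] at this
  rw [Nat.cast_sub h5] at h3
  push_cast at h3
  have h6 : ((2 : ℝ) ^ u - B.card) * (W / 2 ^ u - 1) = W - B.card / 2 ^ u * W - 2 ^ u + B.card := by
    field_simp
    ring
  rw [h6] at h3
  have h7 : (0 : ℝ) ≤ B.card := Nat.cast_nonneg _
  linarith

/-- growth -/
theorem ev (C c : ℝ) (hc : 0 < c) : ∃ t₀ : ℕ, ∀ t : ℕ, t₀ ≤ t → C * (1 + √t + √t * Real.log t) ≤ c * t := by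
  have h1 : Filter.Tendsto (fun t : ℕ => √(t : ℝ)) Filter.atTop Filter.atTop :=
    Real.tendsto_sqrt_atTop.comp tendsto_natCast_atTop_atTop
  have h2 : ∀ᶠ t : ℕ in Filter.atTop, 2 ^ 2 * (|C| + 1) / c ≤ √(t : ℝ) := h1.eventually_ge_atTop _
  have h3 : ∀ᶠ s : ℝ in Filter.atTop, |Real.log s| ≤ c / (8 * (|C| + 1)) * |s| := by
    have := Real.isLittleO_log_id_atTop.bound (show 0 < c / (8 * (|C| + 1)) by positivity)
    simpa using this
  have h4 := h1.eventually h3
  have h5 : ∀ᶠ t : ℕ in Filter.atTop, 1 ≤ √(t : ℝ) := h1.eventually_ge_atTop _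
  obtain ⟨t₀, ht₀⟩ := Filter.eventually_atTop.1 (h2.and (h4.and h5))
  refine ⟨t₀, fun t ht => ?_⟩
  obtain ⟨g1, g2, g3⟩ := ht₀ t ht
  set s := √(t : ℝ) with hs
  have hs2 : (t : ℝ) = s ^ 2 := by rw [hs, Real.sq_sqrt (Nat.cast_nonneg t)]
  have hlog : Real.log t = 2 * Real.log s := by rw [hs2, Real.log_pow]; push_cast; rfl
  rw [abs_of_nonneg (by linarith : 0 ≤ s)] at g2
  have g4 : Real.log s ≤ c / (8 * (|C| + 1)) * s := (le_abs_self _).trans g2
  rw [div_le_iff₀ hc] at g1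
  have hC : 0 ≤ |C| := abs_nonneg C
  have g5 : C * (1 + s + s * Real.log t) ≤ (|C| + 1) * (1 + s + s * Real.log t) := by
    have : 0 ≤ Real.log t := by rw [hlog]; have := Real.log_nonneg g3; linarith
    have h6 : 0 ≤ 1 + s + s * Real.log t := by positivity
    have h7 := le_abs_self C
    nlinarith
  refine g5.trans ?_
  have g6 : (|C| + 1) * (s * Real.log t) ≤ c / 4 * s ^ 2 := by
    rw [hlog]
    have : (|C| + 1) * (s * (2 * (c / (8 * (|C| + 1)) * s))) = c / 4 * s ^ 2 := by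
      field_simp
      ring
    rw [← this]
    gcongr
  have g7 : (|C| + 1) * (1 + s) ≤ c / 2 * s ^ 2 := by
    have h8 : (|C| + 1) * (1 + s) ≤ (|C| + 1) * (2 * s) := by gcongr; linarith
    have h9 : (|C| + 1) * 4 ≤ s * c := by linarith
    nlinarith
  have g8 : c * (t : ℝ) = c * s ^ 2 := by rw [hs2]
  have g9 : (|C| + 1) * (1 + s + s * Real.log t) = (|C| + 1) * (1 + s) + (|C| + 1) * (s * Real.log t) := by ring
  have g10 : 0 ≤ c * s ^ 2 := by positivity
  linarith

end Pool.Agent.Q14.BT
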