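import Pool.Agent.Q74.BT.Stm3
import Pool.Agent.Q153.BT.Kap

/-!
# Project BT (helper74), part 3: job Net, trajectories of the block at all the levels of the segment
-/

set_option autoImplicit false

namespace Pool.Agent.Q14.BT

open Finset
open Pool.Agent.Q158.Pair (T surv nc)
open Pool.Agent.Q74.AR (oc bE oc_per bE_sq)
open Pool.Agent.Q74.KP (EE Erf pq EE_mono EE_add EE_mul EE_const EE_sum oc_add)
open Pool.Agent.Q74.BL (nx ww EE_oc EE_split T_add oc_pow_even)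
open Pool.Agent.Q74.BT
open Pool.Agent.H395R2.G3 (rr FF rate)
open Pool.Agent.Q153.BT (rr_bounds)

/-- from time `v` to time `v + r` the level grows by `r / 2` up to an error -/
theorem extend (v r : ℕ) (j : ℤ → ℕ) (hper : ∀ x y : ℤ, j (x + 2 ^ v * y) = j x) (d δ η : ℝ) (hη : 0 < η) :
    EE (v + r) (fun x => Set.indicator {x : ℤ | δ + η < |(oc (v + r) (x + j x) : ℝ) - (((v + r : ℕ) : ℝ) / 2 + d)|} 1 x) ≤
      EE v (fun x => Set.indicator {x : ℤ | δ < |(oc v (x + j x) : ℝ) - ((v : ℝ) / 2 + d)|} 1 x) + r / 4 / η ^ 2 := by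
  rw [EE_split]
  have h1 : EE v (fun x => Set.indicator {x : ℤ | δ < |(oc v (x + j x) : ℝ) - ((v : ℝ) / 2 + d)|} 1 x) + r / 4 / η ^ 2 =
      EE v (fun x => Set.indicator {x : ℤ | δ < |(oc v (x + j x) : ℝ) - ((v : ℝ) / 2 + d)|} (1 : ℤ → ℝ) x + r / 4 / η ^ 2) := by
    rw [EE_add v (fun x => Set.indicator {x : ℤ | δ < |(oc v (x + j x) : ℝ) - ((v : ℝ) / 2 + d)|} (1 : ℤ → ℝ) x), EE_const]
  rw [h1]
  refine EE_mono v fun x => ?_
  have h2 : Set.indicator {x : ℤ | δ < |(oc v (x + j x) : ℝ) - ((v : ℝ) / 2 + d)|} (1 : ℤ → ℝ) x + r / 4 / η ^ 2 =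
      EE r (fun x' => Set.indicator {x : ℤ | δ < |(oc v (x + j x) : ℝ) - ((v : ℝ) / 2 + d)|} (1 : ℤ → ℝ) x +
        (1 / η ^ 2) * ((oc r (3 ^ oc v (x + j x) * x' + T^[v] (x + j x)) : ℝ) - r / 2) ^ 2) := by
    rw [EE_add r (fun _ => Set.indicator {x : ℤ | δ < |(oc v (x + j x) : ℝ) - ((v : ℝ) / 2 + d)|} (1 : ℤ → ℝ) x), EE_const,
      EE_mul]
    have h3 := EE_oc r (fun m : ℕ => ((m : ℝ) - r / 2) ^ 2) (oc v (x + j x)) (T^[v] (x + j x))
    rw [h3, bE_sq]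
    congr 1
    ring
  rw [h2]
  refine EE_mono r fun x' => ?_
  have hj : j (2 ^ v * x' + x) = j x := by rw [add_comm, hper]
  have hx : (2 ^ v * x' + x : ℤ) + (j (2 ^ v * x' + x) : ℤ) = (x + j x) + 2 ^ v * x' := by rw [hj]; ring
  have hoc : oc (v + r) ((2 ^ v * x' + x : ℤ) + (j (2 ^ v * x' + x) : ℤ)) =
      oc v (x + j x) + oc r (3 ^ oc v (x + j x) * x' + T^[v] (x + j x)) := by
    rw [hx, oc_add, oc_per, T_add]
    congr 2
    ring
  set m : ℕ := oc r (3 ^ oc v (x + j x) * x' + T^[v] (x + j x)) with hm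
  refine Set.indicator_apply_le' ?_ ?_
  · intro hmem
    rw [Set.mem_ofPred_eq, hoc] at hmem
    push_cast at hmem
    rw [Pi.one_apply]
    by_cases h3 : δ < |(oc v (x + j x) : ℝ) - ((v : ℝ) / 2 + d)|
    · rw [Set.indicator_of_mem (by exact h3), Pi.one_apply]
      have : 0 ≤ (1 / η ^ 2) * ((m : ℝ) - r / 2) ^ 2 := by positivity
      linarith
    · rw [Set.indicator_of_notMem (by exact h3), zero_add]
      push Not at h3
      have h4 : η < |(m : ℝ) - r / 2| := by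
        have h5 : |((oc v (x + j x) : ℝ) - ((v : ℝ) / 2 + d)) + ((m : ℝ) - r / 2)| ≤
            |(oc v (x + j x) : ℝ) - ((v : ℝ) / 2 + d)| + |(m : ℝ) - r / 2| := abs_add_le _ _
        have h6 : ((oc v (x + j x) : ℝ) - ((v : ℝ) / 2 + d)) + ((m : ℝ) - r / 2) =
            (oc v (x + j x) : ℝ) + m - (((v : ℝ) + r) / 2 + d) := by ring
        rw [h6] at h5
        linarith
      have h7 : η ^ 2 ≤ ((m : ℝ) - r / 2) ^ 2 := by
        rw [← sq_abs ((m : ℝ) - r / 2)]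
        exact pow_le_pow_left₀ hη.le h4.le 2
      calc (1 : ℝ) = (1 / η ^ 2) * η ^ 2 := by field_simp
        _ ≤ _ := by gcongr
  · intro _
    have h3 : 0 ≤ Set.indicator {x : ℤ | δ < |(oc v (x + j x) : ℝ) - ((v : ℝ) / 2 + d)|} (1 : ℤ → ℝ) x :=
      Set.indicator_nonneg (fun _ _ => zero_le_one) _
    have : 0 ≤ (1 / η ^ 2) * ((m : ℝ) - r / 2) ^ 2 := by positivity
    linarith

theorem log_large (X : ℝ) : ∃ L₀ : ℕ, ∀ L : ℕ, L₀ ≤ L → X ≤ Real.log L := by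
  refine ⟨⌈Real.exp X⌉₊, fun L hL => ?_⟩
  have h1 : Real.exp X ≤ L := (Nat.le_ceil _).trans (by exact_mod_cast hL)
  rw [Real.le_log_iff_exp_le (lt_of_lt_of_le (Real.exp_pos _) h1)]
  exact h1

/-- a trajectory with the displacement wanted, at a time `v ≤ 42 log L` -/
theorem line0 (h : S_TopTwo) {γ : ℝ} (hγ : IsG γ) (τ : ℝ) (h0 : 0 ≤ τ) (h1 : τ ≤ 1) (ε : ℝ) (hε : 0 < ε) :
    ∃ L₀ : ℕ, ∀ L : ℕ, L₀ ≤ L → ∃ v : ℕ, (v : ℝ) ≤ 42 * Real.log L ∧ ∃ j : ℤ → ℕ, (∀ x, j x < L) ∧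
      (∀ x y, j (x + 2 ^ v * y) = j x) ∧
      EE v (fun x => Set.indicator {x : ℤ | ε * Real.log L < |(oc v (x + j x) : ℝ) -
        ((v : ℝ) / 2 + (-Real.log L / (2 * Real.log 2) + τ * (DD γ * Real.log L)))|} 1 x) ≤ ε := by
  obtain ⟨hr1, hr2⟩ := rr_bounds hγ
  have hγ1 := hγ.1
  have hγ2 := hγ.2.1
  have hl2 : (0 : ℝ) < Real.log 2 := Real.log_pos (by norm_num)
  have hl2' : Real.log 2 < 1 := by linarith [Real.log_two_lt_d9]
  have hl2'' : (1 : ℝ) / 2 < Real.log 2 := by linarith [Real.log_two_gt_d9]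
  have hρ : 0 < γ * (rr γ - 1 / 2) := mul_pos (by linarith) (by linarith)
  have hD : 0 < DD γ := by unfold DD; positivity
  obtain ⟨δ, hδ⟩ : ∃ δ : ℝ, δ = -1 / (2 * Real.log 2) + τ * DD γ := ⟨_, rfl⟩
  have hδl : ∀ ℓ : ℝ, -ℓ / (2 * Real.log 2) + τ * (DD γ * ℓ) = δ * ℓ := by
    intro ℓ
    rw [hδ]
    ring
  by_cases hd : δ ≤ 0
  · obtain ⟨L₁, hL₁⟩ := log_large (max 1 (1 / ε))
    refine ⟨max L₁ 1, fun L hL => ?_⟩
    have hL1 : 1 ≤ L := le_trans (le_max_right _ _) hL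
    have hLr : (0 : ℝ) < L := by exact_mod_cast hL1
    have h2 := hL₁ L (le_trans (le_max_left _ _) hL)
    have h3 : 1 ≤ Real.log L := le_trans (le_max_left _ _) h2
    have h4 : 1 / ε ≤ Real.log L := le_trans (le_max_right _ _) h2
    rw [hδl]
    set ℓ := Real.log L with hℓ
    have h5 : 1 ≤ ε * ℓ := by
      rw [div_le_iff₀ hε] at h4
      linarith
    have h6 : 0 ≤ -2 * δ * ℓ := by nlinarith
    have h7 : (⌊-2 * δ * ℓ⌋₊ : ℝ) ≤ -2 * δ * ℓ := Nat.floor_le h6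
    have h8 : -2 * δ * ℓ < ⌊-2 * δ * ℓ⌋₊ + 1 := Nat.lt_floor_add_one _
    obtain ⟨v, hv⟩ : ∃ v : ℕ, v = ⌊-2 * δ * ℓ⌋₊ := ⟨_, rfl⟩
    rw [← hv] at h7 h8
    have h9 : -2 * δ * ℓ ≤ ℓ / Real.log 2 := by
      have : -2 * δ ≤ 1 / Real.log 2 := by
        rw [hδ]
        have h10 : 0 ≤ τ * DD γ := by positivity
        have h11 : -2 * (-1 / (2 * Real.log 2) + τ * DD γ) = 1 / Real.log 2 - 2 * (τ * DD γ) := by
          field_simp
          ring
        rw [h11]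
        linarith
      calc -2 * δ * ℓ ≤ 1 / Real.log 2 * ℓ := by gcongr
        _ = ℓ / Real.log 2 := by ring
    have hvL : 2 ^ v ≤ L := by
      have h10 : (v : ℝ) * Real.log 2 ≤ ℓ := by
        have := h7.trans h9
        rwa [le_div_iff₀ hl2] at this
      have h11 : ((2 ^ v : ℕ) : ℝ) ≤ L := by
        push_cast
        rw [← Real.log_le_log_iff (by positivity) hLr, Real.log_pow]
        exact h10
      exact_mod_cast h11
    have h2v : (0 : ℤ) < 2 ^ v := by positivity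
    refine ⟨v, ?_, fun x => ((-x) % 2 ^ v).toNat, ?_, ?_, ?_⟩
    · refine (h7.trans h9).trans ?_
      rw [div_le_iff₀ hl2]
      nlinarith
    · intro x
      have h12 := Int.emod_lt_of_pos (-x) h2v
      have h13 := Int.emod_nonneg (-x) h2v.ne'
      have h14 : (((-x) % 2 ^ v).toNat : ℤ) < ((2 ^ v : ℕ) : ℤ) := by
        push_cast
        omega
      have h15 : ((-x) % 2 ^ v).toNat < 2 ^ v := by exact_mod_cast h14
      exact lt_of_lt_of_le h15 hvL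
    · intro x y
      simp only
      have e : -(x + 2 ^ v * y) = -x + 2 ^ v * (-y) := by ring
      rw [e, Int.add_mul_emod_self_left]
    · have h16 : ∀ x : ℤ, Set.indicator {x : ℤ | ε * ℓ < |(oc v (x + (((-x) % 2 ^ v).toNat : ℕ)) : ℝ) -
          ((v : ℝ) / 2 + δ * ℓ)|} (1 : ℤ → ℝ) x ≤ 0 := by
        intro x
        rw [Set.indicator_of_notMem]
        rw [Set.mem_ofPred_eq, not_lt]
        have h13 := Int.emod_nonneg (-x) h2v.ne'
        have e : x + (((-x) % 2 ^ v).toNat : ℤ) = 2 ^ v * (-((-x) / 2 ^ v)) := by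
          rw [Int.toNat_of_nonneg h13]
          have := Int.mul_ediv_add_emod (-x) (2 ^ v)
          linear_combination this
        rw [e, oc_pow_even]
        rw [abs_le]
        push_cast
        constructor <;> linarith
      have h17 := EE_mono v h16
      rw [EE_const] at h17
      linarith
  · push Not at hd
    set ρ := γ * (rr γ - 1 / 2) with hρd
    have hδρ : δ ≤ ρ := by
      rw [hδ]
      unfold DD
      rw [← hρd]
      have h2 : -1 / (2 * Real.log 2) + τ * (ρ + 1 / (2 * Real.log 2)) = τ * ρ - (1 - τ) * (1 / (2 * Real.log 2)) := by ring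
      rw [h2]
      have h3 : 0 ≤ (1 - τ) * (1 / (2 * Real.log 2)) := mul_nonneg (by linarith) (by positivity)
      nlinarith
    obtain ⟨θ, hθ⟩ : ∃ θ : ℝ, θ = δ / ρ := ⟨_, rfl⟩
    have hθ0 : 0 < θ := by rw [hθ]; positivity
    have hθ1 : θ ≤ 1 := by rw [hθ, div_le_one hρ]; exact hδρ
    have hδθ : δ = (rr γ - 1 / 2) * (γ * θ) := by
      rw [hθ]
      field_simp
      rw [hρd]
      ring
    obtain ⟨ε₁, hε₁⟩ : ∃ ε₁ : ℝ, ε₁ = min (ε / 105) (1 / 2) := ⟨_, rfl⟩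
    have hε₁0 : 0 < ε₁ := by rw [hε₁]; positivity
    have hε₁1 : ε₁ ≤ ε / 105 := by rw [hε₁]; exact min_le_left _ _
    obtain ⟨L₂, hL₂⟩ := h γ hγ ε₁ hε₁0
    obtain ⟨L₁, hL₁⟩ := log_large (max (21 / ε) (Real.log (L₂ + 1) / θ + 1))
    refine ⟨max L₁ 1, fun L hL => ?_⟩
    have hL1 : 1 ≤ L := le_trans (le_max_right _ _) hL
    have hLr : (0 : ℝ) < L := by exact_mod_cast hL1
    have hLr1 : (1 : ℝ) ≤ L := by exact_mod_cast hL1
    have h2 := hL₁ L (le_trans (le_max_left _ _) hL)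
    have h4 : 21 / ε ≤ Real.log L := le_trans (le_max_left _ _) h2
    have h3 : Real.log (L₂ + 1) / θ + 1 ≤ Real.log L := le_trans (le_max_right _ _) h2
    rw [hδl]
    set ℓ := Real.log L with hℓ
    have h5 : 21 ≤ ε * ℓ := by
      rw [div_le_iff₀ hε] at h4
      linarith
    have hℓ0 : 0 < ℓ := by
      by_contra hh
      push Not at hh
      nlinarith
    obtain ⟨y, hy⟩ : ∃ y : ℝ, y = (L : ℝ) ^ θ := ⟨_, rfl⟩
    have hy0 : 0 < y := by rw [hy]; positivity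
    have hly : Real.log y = θ * ℓ := by rw [hy, Real.log_rpow hLr]
    have hyL2 : (L₂ : ℝ) + 1 ≤ y := by
      rw [← Real.log_le_log_iff (by positivity) hy0, hly]
      have h6 : Real.log (L₂ + 1) / θ ≤ ℓ := by linarith
      rw [div_le_iff₀ hθ0] at h6
      linarith
    have hy1 : 1 ≤ y := by
      have : (0 : ℝ) ≤ L₂ := Nat.cast_nonneg _
      linarith
    have hyL : y ≤ L := by
      rw [hy]
      calc (L : ℝ) ^ θ ≤ (L : ℝ) ^ (1 : ℝ) := Real.rpow_le_rpow_of_exponent_le hLr1 hθ1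
        _ = L := Real.rpow_one _
    obtain ⟨L', hL'⟩ : ∃ L' : ℕ, L' = ⌊y⌋₊ := ⟨_, rfl⟩
    have hL'1 : (L' : ℝ) ≤ y := by rw [hL']; exact Nat.floor_le hy0.le
    have hL'2 : y < L' + 1 := by rw [hL']; exact Nat.lt_floor_add_one _
    have hL'3 : L₂ ≤ L' := by
      have : (L₂ : ℝ) < L' + 1 := by linarith
      have : L₂ < L' + 1 := by exact_mod_cast this
      omega
    have hL'4 : 1 ≤ L' := by
      rw [hL']
      exact Nat.le_floor (by push_cast; exact hy1)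
    have hL'5 : (1 : ℝ) ≤ L' := by exact_mod_cast hL'4
    have hll1 : Real.log L' ≤ θ * ℓ := by
      rw [← hly]
      exact Real.log_le_log (by linarith) hL'1
    have hll2 : θ * ℓ - Real.log 2 ≤ Real.log L' := by
      rw [← hly, ← Real.log_div hy0.ne' (by norm_num)]
      refine Real.log_le_log (by positivity) ?_
      linarith
    have hll0 : 0 ≤ Real.log L' := Real.log_nonneg hL'5
    obtain ⟨u, hu1, hu2, j, hj1, hj2, hj3⟩ := hL₂ L' hL'3
    have hθℓ : θ * ℓ ≤ ℓ := by nlinarith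
    refine ⟨u, ?_, j, ?_, hj2, ?_⟩
    · calc (u : ℝ) ≤ γ * Real.log L' := hu2
        _ ≤ 42 * ℓ := by nlinarith
    · intro x
      have h6 := hj1 x
      have h7 : (L' : ℝ) ≤ L := hL'1.trans hyL
      have h8 : L' ≤ L := by exact_mod_cast h7
      omega
    · refine le_trans (EE_mono u fun x => ?_) (hj3.trans (hε₁1.trans (by linarith)))
      refine Set.indicator_le_indicator_of_subset ?_ (fun _ => zero_le_one) x
      intro x hx
      rw [Set.mem_ofPred_eq] at hx ⊢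
      intro hcon
      have hu42 : (u : ℝ) ≤ 42 * ℓ := by
        calc (u : ℝ) ≤ γ * Real.log L' := hu2
          _ ≤ 42 * ℓ := by nlinarith
      have h6 : (u : ℝ) ≤ γ * (θ * ℓ) := hu2.trans (mul_le_mul_of_nonneg_left hll1 (by linarith))
      have h7 : γ * (θ * ℓ) - u ≤ 42 * ε₁ * ℓ + 42 := by
        have h8 : (1 - ε₁) * (γ * Real.log L') ≤ u := hu1
        have h9 : γ * (θ * ℓ) ≤ γ * Real.log L' + 42 := by
          have : γ * (θ * ℓ - Real.log L') ≤ 42 * 1 := by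
            refine mul_le_mul (by linarith) (by linarith) ?_ (by norm_num)
            linarith
          linarith
        have h10 : ε₁ * (γ * Real.log L') ≤ 42 * ε₁ * ℓ := by
          have h11 : γ * Real.log L' ≤ 42 * ℓ := by nlinarith
          nlinarith
        linarith
      have h12 : |(rr γ - 1 / 2) * u - δ * ℓ| ≤ 1 / 4 * (42 * ε₁ * ℓ + 42) := by
        have e : (rr γ - 1 / 2) * u - δ * ℓ = -((rr γ - 1 / 2) * (γ * (θ * ℓ) - u)) := by
          rw [hδθ]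
          ring
        rw [e, abs_neg, abs_mul, abs_of_nonneg (by linarith : 0 ≤ rr γ - 1 / 2),
          abs_of_nonneg (by linarith : 0 ≤ γ * (θ * ℓ) - u)]
        refine mul_le_mul (by linarith) h7 (by linarith) (by norm_num)
      have h13 : |(oc u (x + j x) : ℝ) - ((u : ℝ) / 2 + δ * ℓ)| ≤
          |(oc u (x + j x) : ℝ) - rr γ * u| + |(rr γ - 1 / 2) * u - δ * ℓ| := by
        have e : (oc u (x + j x) : ℝ) - ((u : ℝ) / 2 + δ * ℓ) =
            ((oc u (x + j x) : ℝ) - rr γ * u) + ((rr γ - 1 / 2) * u - δ * ℓ) := by ring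
        rw [e]
        exact abs_add_le _ _
      have h14 : ε₁ * u ≤ 42 * ε₁ * ℓ := by nlinarith
      have h15 : ε₁ * ℓ ≤ ε / 105 * ℓ := by gcongr
      linarith

theorem line (h : S_TopTwo) {γ : ℝ} (hγ : IsG γ) (τ : ℝ) (h0 : 0 ≤ τ) (h1 : τ ≤ 1) (ε : ℝ) (hε : 0 < ε) :
    ∃ L₀ : ℕ, ∀ L : ℕ, L₀ ≤ L → ∃ j : ℤ → ℕ, (∀ x, j x < L) ∧
      (∀ x y, j (x + 2 ^ ⌊42 * Real.log L⌋₊ * y) = j x) ∧
      EE ⌊42 * Real.log L⌋₊ (fun x => Set.indicator {x : ℤ | ε * Real.log L < |(oc ⌊42 * Real.log L⌋₊ (x + j x) : ℝ) -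
        ((⌊42 * Real.log L⌋₊ : ℝ) / 2 + (-Real.log L / (2 * Real.log 2) + τ * (DD γ * Real.log L)))|} 1 x) ≤ ε := by
  obtain ⟨L₁, hL₁⟩ := line0 h hγ τ h0 h1 (ε / 2) (by positivity)
  obtain ⟨L₂, hL₂⟩ := log_large (84 / ε ^ 3)
  refine ⟨max L₁ L₂, fun L hL => ?_⟩
  obtain ⟨v, hv, j, hj1, hj2, hj3⟩ := hL₁ L (le_trans (le_max_left _ _) hL)
  have h2 := hL₂ L (le_trans (le_max_right _ _) hL)
  set ℓ := Real.log L with hℓ
  have hℓ0 : 0 < ℓ := lt_of_lt_of_le (by positivity) h2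
  have hvu : v ≤ ⌊42 * ℓ⌋₊ := Nat.le_floor hv
  obtain ⟨r, hr⟩ := Nat.exists_eq_add_of_le hvu
  have hru : (r : ℝ) ≤ 42 * ℓ := by
    have h3 : (⌊42 * ℓ⌋₊ : ℝ) ≤ 42 * ℓ := Nat.floor_le (by positivity)
    have h4 : r ≤ ⌊42 * ℓ⌋₊ := by omega
    exact le_trans (by exact_mod_cast h4) h3
  rw [hr]
  refine ⟨j, hj1, ?_, ?_⟩
  · intro x y
    rw [pow_add, mul_assoc, hj2]
  · have h5 := extend v r j hj2 (-ℓ / (2 * Real.log 2) + τ * (DD γ * ℓ)) (ε / 2 * ℓ) (ε / 2 * ℓ) (by positivity)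
    have h6 : ε / 2 * ℓ + ε / 2 * ℓ = ε * ℓ := by ring
    rw [h6] at h5
    refine h5.trans ?_
    have h7 : (r : ℝ) / 4 / (ε / 2 * ℓ) ^ 2 ≤ ε / 2 := by
      have h8 : (r : ℝ) / 4 / (ε / 2 * ℓ) ^ 2 = r / (ε ^ 2 * ℓ ^ 2) := by
        field_simp
        ring
      rw [h8, div_le_iff₀ (by positivity)]
      have h9 : 84 ≤ ε ^ 3 * ℓ := by
        rw [div_le_iff₀ (by positivity)] at h2
        linarith
      calc (r : ℝ) ≤ 42 * ℓ := hru
        _ = 84 * ℓ / 2 := by ring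
        _ ≤ (ε ^ 3 * ℓ) * ℓ / 2 := by gcongr
        _ = ε / 2 * (ε ^ 2 * ℓ ^ 2) := by ring
    linarith

/-- job Net -/
theorem net (h : S_TopTwo) : S_Net := by
  classical
  intro γ hγ k hk ε hε
  have hk0 : (0 : ℝ) < k := by exact_mod_cast hk
  have hε' : 0 < ε / (k + 1) := by positivity
  have h1 : ∀ i : Fin (k + 1), ∃ L₀ : ℕ, ∀ L : ℕ, L₀ ≤ L → ∃ j : ℤ → ℕ, (∀ x, j x < L) ∧
      (∀ x y, j (x + 2 ^ ⌊42 * Real.log L⌋₊ * y) = j x) ∧
      EE ⌊42 * Real.log L⌋₊ (fun x => Set.indicator {x : ℤ | ε / (k + 1) * Real.log L <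
        |(oc ⌊42 * Real.log L⌋₊ (x + j x) : ℝ) -
        ((⌊42 * Real.log L⌋₊ : ℝ) / 2 + (-Real.log L / (2 * Real.log 2) + ((i : ℕ) : ℝ) / k * (DD γ * Real.log L)))|} 1 x) ≤
        ε / (k + 1) := by
    intro i
    refine line h hγ (((i : ℕ) : ℝ) / k) (by positivity) ?_ (ε / (k + 1)) hε'
    rw [div_le_one hk0]
    have := i.2
    exact_mod_cast (by omega : (i : ℕ) ≤ k)
  choose L₀ hL₀ using h1
  refine ⟨(univ.sup L₀) ⊔ 1, fun L hL => ?_⟩
  have hL1 : 1 ≤ L := le_trans le_sup_right hL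
  have hlog : 0 ≤ Real.log L := Real.log_nonneg (by exact_mod_cast hL1)
  have h2 : ∀ i : Fin (k + 1), L₀ i ≤ L := fun i => le_trans (le_trans (le_sup (mem_univ i)) le_sup_left) hL
  choose j hj1 hj2 hj3 using fun i => hL₀ i L (h2 i)
  refine ⟨⌊42 * Real.log L⌋₊, Nat.floor_le (by positivity), j, hj1, hj2, ?_⟩
  have h3 : ∀ x : ℤ, Set.indicator {x : ℤ | ∃ i : Fin (k + 1), ε * Real.log L <
      |(oc ⌊42 * Real.log L⌋₊ (x + j i x) : ℝ) - ((⌊42 * Real.log L⌋₊ : ℝ) / 2 - Real.log L / (2 * Real.log 2) +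
        ((i : ℕ) : ℝ) / k * (DD γ * Real.log L))|} (1 : ℤ → ℝ) x ≤
      ∑ i : Fin (k + 1), Set.indicator {x : ℤ | ε / (k + 1) * Real.log L <
        |(oc ⌊42 * Real.log L⌋₊ (x + j i x) : ℝ) -
        ((⌊42 * Real.log L⌋₊ : ℝ) / 2 + (-Real.log L / (2 * Real.log 2) + ((i : ℕ) : ℝ) / k * (DD γ * Real.log L)))|}
          (1 : ℤ → ℝ) x := by
    intro x
    refine Set.indicator_apply_le' ?_ ?_
    · rintro ⟨i, hi⟩
      have h4 : x ∈ {x : ℤ | ε / (k + 1) * Real.log L < |(oc ⌊42 * Real.log L⌋₊ (x + j i x) : ℝ) -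
          ((⌊42 * Real.log L⌋₊ : ℝ) / 2 + (-Real.log L / (2 * Real.log 2) + ((i : ℕ) : ℝ) / k * (DD γ * Real.log L)))|} := by
        rw [Set.mem_ofPred_eq]
        have e : (⌊42 * Real.log L⌋₊ : ℝ) / 2 + (-Real.log L / (2 * Real.log 2) + ((i : ℕ) : ℝ) / k * (DD γ * Real.log L)) =
            (⌊42 * Real.log L⌋₊ : ℝ) / 2 - Real.log L / (2 * Real.log 2) + ((i : ℕ) : ℝ) / k * (DD γ * Real.log L) := by
          ring
        rw [e]
        refine lt_of_le_of_lt ?_ hi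
        refine mul_le_mul_of_nonneg_right ?_ hlog
        refine div_le_self hε.le ?_
        linarith
      calc (1 : ℤ → ℝ) x = Set.indicator {x : ℤ | ε / (k + 1) * Real.log L <
            |(oc ⌊42 * Real.log L⌋₊ (x + j i x) : ℝ) - ((⌊42 * Real.log L⌋₊ : ℝ) / 2 +
              (-Real.log L / (2 * Real.log 2) + ((i : ℕ) : ℝ) / k * (DD γ * Real.log L)))|} (1 : ℤ → ℝ) x := by
            rw [Set.indicator_of_mem h4]
        _ ≤ _ := single_le_sum (f := fun i : Fin (k + 1) => Set.indicator {x : ℤ | ε / (k + 1) * Real.log L <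
            |(oc ⌊42 * Real.log L⌋₊ (x + j i x) : ℝ) - ((⌊42 * Real.log L⌋₊ : ℝ) / 2 +
              (-Real.log L / (2 * Real.log 2) + ((i : ℕ) : ℝ) / k * (DD γ * Real.log L)))|} (1 : ℤ → ℝ) x)
            (fun i _ => Set.indicator_nonneg (fun _ _ => zero_le_one) _) (mem_univ i)
    · intro _
      exact sum_nonneg fun i _ => Set.indicator_nonneg (fun _ _ => zero_le_one) _
  refine (EE_mono _ h3).trans ?_
  rw [EE_sum]
  refine (sum_le_sum fun i _ => hj3 i).trans ?_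
  rw [sum_const, card_univ, Fintype.card_fin, nsmul_eq_mul]
  push_cast
  rw [mul_div_cancel₀]
  positivity

end Pool.Agent.Q14.BT
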